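import Pool.Agent.Helper99.HG.Sum

/-!
# Project HG (MP_e66f84_ag): the counting theorem with a rate
-/

set_option autoImplicit false

namespace Pool.Agent.Helper99.HG

open Filter Topology

variable {k : ℕ} {G : Type}

private theorem ll_mono {y x : ℕ} (hy : 2 ≤ y) (h : y ≤ x) : Real.log (Real.log y) ≤ Real.log (Real.log x) :=
  Real.log_le_log (Real.log_pos (by exact_mod_cast (by omega : 1 < y)))
    (Real.log_le_log (by exact_mod_cast (by omega : 0 < y)) (by exact_mod_cast h))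

/-- uniform constants for the components of the second kind -/
private theorem unif_B (D : CD k G) : ∃ δ C : ℝ, 0 < δ ∧ δ ≤ 1 ∧ 0 ≤ C ∧ ∀ J, TB D J → ∀ y x : ℕ, 2 ≤ y → y ≤ x →
    ∀ S : Finset D.P, (∀ p, p ∈ S ↔ p ∉ D.Ex ∧ y < D.nm p ∧ D.nm p ≤ x) →
      ∑ p ∈ S, WJ D J p / D.nm p ≤ (1 - δ) * (Real.log (Real.log x) - Real.log (Real.log y)) + C := by
  classical
  have h : ∀ J : Finset (Fin k), ∃ δ C : ℝ, 0 < δ ∧ δ ≤ 1 ∧ 0 ≤ C ∧ (TB D J → ∀ y x : ℕ, 2 ≤ y → y ≤ x →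
      ∀ S : Finset D.P, (∀ p, p ∈ S ↔ p ∉ D.Ex ∧ y < D.nm p ∧ D.nm p ≤ x) →
      ∑ p ∈ S, WJ D J p / D.nm p ≤ (1 - δ) * (Real.log (Real.log x) - Real.log (Real.log y)) + C) := by
    intro J
    by_cases hJ : TB D J
    · obtain ⟨_, δ, C, h1, h2⟩ := id hJ
      refine ⟨min δ 1, |C|, lt_min h1 one_pos, min_le_right _ _, abs_nonneg C, fun _ y x hy hx S hS => ?_⟩
      have h3 := h2 y x hy hx S hS
      have h4 := ll_mono hy hx
      have h5 : (1 - δ) * (Real.log (Real.log x) - Real.log (Real.log y)) ≤ (1 - min δ 1) * (Real.log (Real.log x) - Real.log (Real.log y)) :=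
        mul_le_mul_of_nonneg_right (by linarith [min_le_left δ 1]) (by linarith)
      linarith [le_abs_self C]
    · exact ⟨1, 0, one_pos, le_rfl, le_rfl, fun h => absurd h hJ⟩
  choose δ C h1 h2 h3 h4 using h
  refine ⟨∏ J, δ J, ∑ J, C J, Finset.prod_pos fun J _ => h1 J, Finset.prod_le_one (fun J _ => (h1 J).le) fun J _ => h2 J,
    Finset.sum_nonneg fun J _ => h3 J, fun J hJ y x hy hx S hS => ?_⟩
  have h5 := h4 J hJ y x hy hx S hS
  have h6 : ∏ J, δ J ≤ δ J := by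
    rw [← Finset.mul_prod_erase Finset.univ δ (Finset.mem_univ J)]
    have : ∏ J ∈ Finset.univ.erase J, δ J ≤ 1 := Finset.prod_le_one (fun J _ => (h1 J).le) fun J _ => h2 J
    nlinarith [h1 J]
  have h7 : C J ≤ ∑ J, C J := Finset.single_le_sum (fun J _ => h3 J) (Finset.mem_univ J)
  have h8 := ll_mono hy hx
  have h9 : (1 - δ J) * (Real.log (Real.log x) - Real.log (Real.log y)) ≤ (1 - ∏ J, δ J) * (Real.log (Real.log x) - Real.log (Real.log y)) :=
    mul_le_mul_of_nonneg_right (by linarith) (by linarith)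
  linarith

/-- uniform constants for the components of the first kind -/
private theorem unif_A (D : CD k G) : ∃ δ C : ℝ, 0 < δ ∧ 0 ≤ C ∧ ∀ J, TA D J → ∀ y x : ℕ, 2 ≤ y → y ≤ x →
    ∀ S : Finset D.P, (∀ p, p ∈ S ↔ p ∉ D.Ex ∧ y < D.nm p ∧ D.nm p ≤ x ∧ ∀ o ∈ D.V p, D.cmp o ∉ J) →
      δ * (Real.log (Real.log x) - Real.log (Real.log y)) - C ≤ ∑ p ∈ S, (1 : ℝ) / D.nm p := by
  classical
  have h : ∀ J : Finset (Fin k), ∃ δ C : ℝ, 0 < δ ∧ δ ≤ 1 ∧ 0 ≤ C ∧ (TA D J → ∀ y x : ℕ, 2 ≤ y → y ≤ x →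
      ∀ S : Finset D.P, (∀ p, p ∈ S ↔ p ∉ D.Ex ∧ y < D.nm p ∧ D.nm p ≤ x ∧ ∀ o ∈ D.V p, D.cmp o ∉ J) →
      δ * (Real.log (Real.log x) - Real.log (Real.log y)) - C ≤ ∑ p ∈ S, (1 : ℝ) / D.nm p) := by
    intro J
    by_cases hJ : TA D J
    · obtain ⟨δ, C, h1, h2⟩ := id hJ
      refine ⟨min δ 1, |C|, lt_min h1 one_pos, min_le_right _ _, abs_nonneg C, fun _ y x hy hx S hS => ?_⟩
      have h3 := h2 y x hy hx S hS
      have h4 := ll_mono hy hx
      have h5 : min δ 1 * (Real.log (Real.log x) - Real.log (Real.log y)) ≤ δ * (Real.log (Real.log x) - Real.log (Real.log y)) :=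
        mul_le_mul_of_nonneg_right (min_le_left δ 1) (by linarith)
      linarith [le_abs_self C]
    · exact ⟨1, 0, one_pos, le_rfl, le_rfl, fun h => absurd h hJ⟩
  choose δ C h1 h2 h3 h4 using h
  refine ⟨∏ J, δ J, ∑ J, C J, Finset.prod_pos fun J _ => h1 J,
    Finset.sum_nonneg fun J _ => h3 J, fun J hJ y x hy hx S hS => ?_⟩
  have h5 := h4 J hJ y x hy hx S hS
  have h6 : ∏ J, δ J ≤ δ J := by
    rw [← Finset.mul_prod_erase Finset.univ δ (Finset.mem_univ J)]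
    have : ∏ J ∈ Finset.univ.erase J, δ J ≤ 1 := Finset.prod_le_one (fun J _ => (h1 J).le) fun J _ => h2 J
    nlinarith [h1 J]
  have h7 : C J ≤ ∑ J, C J := Finset.single_le_sum (fun J _ => h3 J) (Finset.mem_univ J)
  have h8 := ll_mono hy hx
  have h9 : (∏ J, δ J) * (Real.log (Real.log x) - Real.log (Real.log y)) ≤ δ J * (Real.log (Real.log x) - Real.log (Real.log y)) :=
    mul_le_mul_of_nonneg_right h6 (by linarith)
  linarith

private theorem exp_ll {X : ℕ} (hX : 3 ≤ X) (a : ℝ) : Real.exp (a * Real.log (Real.log X)) = Real.log X ^ a := by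
  rw [Real.rpow_def_of_pos (by linarith [log_ge_one hX]), mul_comm]

open Classical in
/-- few sets with a large smooth part -/
private theorem exc_E {D : CD k G} (hS : Sys D.P D.nm) : ∃ C : ℝ, 0 < C ∧ ∀ (N A X κ : ℕ), 3 ≤ X → κ + 1 ≤ N → 0 < A →
    ∀ S : Finset (Finset D.P), (∀ c ∈ S, Nm D c ≤ X ∧
      ¬ (∏ p ∈ (pf D c).filter (fun p => D.nm p ≤ zz N X κ), D.nm p) ^ A ≤ zz N X (κ + 1)) →
    (S.card : ℝ) ≤ 4 * A * C * X * Real.log X ^ (-(1 / (N : ℝ))) := by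
  obtain ⟨C, hC, h⟩ := smooth hS
  refine ⟨C, hC, fun N A X κ hX hκ hA S hSc => ?_⟩
  have hA' : (0 : ℝ) < A := by exact_mod_cast hA
  have hlX := log_ge_one hX
  have hN' : (0 : ℝ) < N := by exact_mod_cast (by omega : 0 < N)
  have hz2 := zz_two (N := N) (κ := κ) hX
  have hz3 := zz_two (N := N) (κ := κ + 1) hX
  have hlz : 0 < Real.log (zz N X (κ + 1)) := Real.log_pos (by exact_mod_cast (by omega : 1 < zz N X (κ + 1)))
  have h1 := h (zz N X κ) X hz2 (Real.log (zz N X (κ + 1)) / A) (by positivity) S (by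
    intro c hc
    obtain ⟨g1, g2⟩ := hSc c hc
    refine ⟨g1, ?_⟩
    push Not at g2
    have g3 : (zz N X (κ + 1) : ℝ) ≤ ((∏ p ∈ (pf D c).filter (fun p => D.nm p ≤ zz N X κ), D.nm p : ℕ) : ℝ) ^ A := by exact_mod_cast g2.le
    have g4 := Real.log_le_log (by exact_mod_cast (by omega : 0 < zz N X (κ + 1))) g3
    rw [Real.log_pow, Nat.cast_prod, Real.log_prod] at g4
    · rw [div_le_iff₀ hA', mul_comm]
      refine g4.trans (mul_le_mul_of_nonneg_left ?_ hA'.le)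
      refine Finset.sum_le_sum_of_subset_of_nonneg ?_ fun p _ _ => Real.log_nonneg ?_
      · intro p hp
        obtain ⟨k1, k2⟩ := Finset.mem_filter.mp hp
        exact Finset.mem_filter.mpr ⟨(mem_pf.mp k1).1, k2⟩
      · have := hS.two p
        exact_mod_cast (by omega : 1 ≤ D.nm p)
    · intro p _
      have := hS.two p
      exact_mod_cast (by omega : D.nm p ≠ 0))
  refine h1.trans ?_
  have h2 := log_zz_le (N := N) (κ := κ) hX (by omega)
  have h3 := le_log_zz (N := N) (κ := κ + 1) hX hκ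
  have hp1 : 0 < Real.log X ^ ((κ : ℝ) / N) := by positivity
  have hp2 : 0 < Real.log X ^ (((κ + 1 : ℕ) : ℝ) / N) := by positivity
  have h4 : Real.log (zz N X κ) / (Real.log (zz N X (κ + 1)) / A) ≤ 4 * A * Real.log X ^ (-(1 / (N : ℝ))) := by
    have e : Real.log X ^ (-(1 / (N : ℝ))) = Real.log X ^ ((κ : ℝ) / N) / Real.log X ^ (((κ + 1 : ℕ) : ℝ) / N) := by
      rw [← Real.rpow_sub (by linarith)]
      congr 1
      push_cast
      field_simp
      ring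
    rw [e, div_div_eq_mul_div, div_le_iff₀ hlz]
    have h5 : 4 * (A : ℝ) * (Real.log X ^ ((κ : ℝ) / N) / Real.log X ^ (((κ + 1 : ℕ) : ℝ) / N)) * (1 / 4 * Real.log X ^ (((κ + 1 : ℕ) : ℝ) / N)) ≤
        4 * (A : ℝ) * (Real.log X ^ ((κ : ℝ) / N) / Real.log X ^ (((κ + 1 : ℕ) : ℝ) / N)) * Real.log (zz N X (κ + 1)) :=
      mul_le_mul_of_nonneg_left h3 (by positivity)
    refine le_trans ?_ h5
    calc Real.log (zz N X κ) * A ≤ Real.log X ^ ((κ : ℝ) / N) * A := mul_le_mul_of_nonneg_right h2 hA'.le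
      _ = _ := by field_simp
  calc C * X * (Real.log (zz N X κ) / (Real.log (zz N X (κ + 1)) / A)) ≤ C * X * (4 * A * Real.log X ^ (-(1 / (N : ℝ)))) :=
        mul_le_mul_of_nonneg_left h4 (by positivity)
    _ = _ := by ring

open Classical in
/-- few sets without primes which have no option in `J` -/
private theorem exc_F {D : CD k G} (hS : Sys D.P D.nm) {δ CA : ℝ} (hδ : 0 < δ)
    (hTA : ∀ J, TA D J → ∀ y x : ℕ, 2 ≤ y → y ≤ x →
    ∀ S : Finset D.P, (∀ p, p ∈ S ↔ p ∉ D.Ex ∧ y < D.nm p ∧ D.nm p ≤ x ∧ ∀ o ∈ D.V p, D.cmp o ∉ J) →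
      δ * (Real.log (Real.log x) - Real.log (Real.log y)) - CA ≤ ∑ p ∈ S, (1 : ℝ) / D.nm p) :
    ∃ C : ℝ, 0 < C ∧ ∀ (N X κ : ℕ) (J : Finset (Fin k)), 3 ≤ X → κ < N → TA D J →
    ∀ S : Finset (Finset D.P), (∀ c ∈ S, Nm D c ≤ X ∧
      ¬ ∃ p ∈ pf D c, sc (zz N X) N (D.nm p) = κ ∧ ∀ o ∈ D.V p, D.cmp o ∉ J) →
    (S.card : ℝ) ≤ C * X * Real.log X ^ (-(δ / (N : ℝ))) := by
  obtain ⟨C, hC, h⟩ := hall hS
  refine ⟨C * Real.exp (CA + δ * Real.log 4), by positivity, fun N X κ J hX hκ hJ S hSc => ?_⟩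
  set T := (pr D X).filter (fun p => p ∉ D.Ex ∧ sc (zz N X) N (D.nm p) = κ ∧ ∀ o ∈ D.V p, D.cmp o ∉ J) with hT
  set T' := (pr D (zz N X (κ + 1))).filter (fun p => p ∉ D.Ex ∧ zz N X κ < D.nm p ∧ ∀ o ∈ D.V p, D.cmp o ∉ J) with hT'
  have hN : 0 < N := by omega
  have h1 := h X (by omega) T (fun p hp => (mem_pr hS).mp (Finset.mem_filter.mp hp).1) S (by
    intro c hc
    obtain ⟨g1, g2⟩ := hSc c hc
    refine ⟨g1, ?_⟩
    rw [Finset.disjoint_left]
    intro p hp hpT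
    obtain ⟨_, k1, k2, k3⟩ := Finset.mem_filter.mp hpT
    exact g2 ⟨p, mem_pf.mpr ⟨hp, k1⟩, k2, k3⟩)
  have hsub : T' ⊆ T := by
    intro p hp
    obtain ⟨k0, k1, k2, k3⟩ := Finset.mem_filter.mp hp
    have k4 := (mem_pr hS).mp k0
    refine Finset.mem_filter.mpr ⟨(mem_pr hS).mpr ?_, k1, ?_, k3⟩
    · rw [← zz_top hN hX]
      exact k4.trans (zz_mono hX (by omega))
    · have k5 : κ ≤ sc (zz N X) N (D.nm p) := Nat.le_findGreatest (by omega) k2
      by_contra hne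
      have k6 : κ + 1 ≤ sc (zz N X) N (D.nm p) := by omega
      have k7 := sc_pos (z := zz N X) (N := N) (p := D.nm p) (by omega)
      have k8 := zz_mono (N := N) hX k6
      omega
  have h2 := hTA J hJ (zz N X κ) (zz N X (κ + 1)) (zz_two hX) (zz_mono hX (Nat.le_succ κ)) T' (by
    intro p
    rw [hT', Finset.mem_filter, mem_pr hS]
    tauto)
  have h3 : ∑ p ∈ T', (1 : ℝ) / D.nm p ≤ ∑ p ∈ T, (1 : ℝ) / D.nm p :=
    Finset.sum_le_sum_of_subset_of_nonneg hsub fun p _ _ => by positivity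
  have h4 := ll_diff' hN hX hκ
  have h5 : δ * (Real.log (Real.log X) / N - Real.log 4) ≤
      δ * (Real.log (Real.log (zz N X (κ + 1))) - Real.log (Real.log (zz N X κ))) := mul_le_mul_of_nonneg_left h4 hδ.le
  have h6 : Real.exp (-∑ p ∈ T, (1 : ℝ) / D.nm p) ≤ Real.exp (CA + δ * Real.log 4) * Real.log X ^ (-(δ / (N : ℝ))) := by
    rw [← exp_ll hX, ← Real.exp_add]
    refine Real.exp_le_exp.mpr ?_
    have e : -(δ / (N : ℝ)) * Real.log (Real.log X) = -(δ * (Real.log (Real.log X) / N)) := by ring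
    rw [e]
    linarith
  calc (S.card : ℝ) ≤ C * X * Real.exp (-∑ p ∈ T, (1 : ℝ) / D.nm p) := h1
    _ ≤ C * X * (Real.exp (CA + δ * Real.log 4) * Real.log X ^ (-(δ / (N : ℝ)))) := mul_le_mul_of_nonneg_left h6 (by positivity)
    _ = _ := by ring

/-- The counting theorem with a rate. -/
def StmtCountR : Prop :=
  ∀ (k : ℕ) (G : Type) [CommGroup G] (D : CD k G), Sys D.P D.nm → (∃ K : ℕ, ∀ p, (D.V p).card ≤ K) → BT D →
    (∀ J : Finset (Fin k), TA D J ∨ TB D J) →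
    ∃ η C : ℝ, 0 < η ∧ 0 < C ∧ ∀ X : ℕ, 3 ≤ X → ∀ S : Finset (Finset D.P),
      (∀ c ∈ S, Nm D c ≤ X ∧ Bad D c) → (S.card : ℝ) ≤ C * X / Real.log X ^ η

private theorem rpow_le99 {X : ℕ} (hX : 3 ≤ X) {a η : ℝ} (h : η ≤ a) : Real.log X ^ (-a) ≤ Real.log X ^ (-η) :=
  Real.rpow_le_rpow_of_exponent_le (log_ge_one hX) (by linarith)

open Classical in
theorem countR : StmtCountR := by
  intro k G _ D hS hV hBT hTAB
  obtain ⟨K₀, hV⟩ := hV
  -- the trivial case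
  by_cases hO : Nonempty D.O
  swap
  · refine ⟨1, 1, one_pos, one_pos, fun X hX S hSc => ?_⟩
    have hsub : S ⊆ {∅} := by
      intro c hc
      obtain ⟨τ, _⟩ := (hSc c hc).2
      rw [Finset.mem_singleton, Finset.eq_empty_iff_forall_notMem]
      intro p _
      exact hO ⟨τ p⟩
    have h1 : S.card ≤ 1 := by
      have := Finset.card_le_card hsub
      simpa using this
    have h2 : (S.card : ℝ) ≤ 1 := by exact_mod_cast h1
    have h3 := log_ge_one hX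
    have hX0 : (0 : ℝ) < X := by exact_mod_cast (by omega : 0 < X)
    have h4 : Real.log X ≤ X := (Real.log_le_sub_one_of_pos hX0).trans (by linarith)
    refine h2.trans ?_
    rw [Real.rpow_one, one_mul, le_div_iff₀ (by linarith), one_mul]
    exact h4
  obtain ⟨o₀⟩ := hO
  obtain ⟨δB, CB, hδB, hδB1, hCB, hTB⟩ := unif_B D
  obtain ⟨δA, CA, hδA, hCA, hTA⟩ := unif_A D
  obtain ⟨CM', hMe'⟩ := hS.mert
  obtain ⟨CM, hCM, hMe⟩ : ∃ CM : ℝ, 0 ≤ CM ∧ ∀ y x : ℕ, 2 ≤ y → y ≤ x → ∀ S : Finset D.P, (∀ p ∈ S, y < D.nm p ∧ D.nm p ≤ x) →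
      ∑ p ∈ S, (1 : ℝ) / D.nm p ≤ Real.log (Real.log x) - Real.log (Real.log y) + CM :=
    ⟨|CM'|, abs_nonneg _, fun y x hy hx S h => (hMe' y x hy hx S h).trans (by linarith [le_abs_self CM'])⟩
  -- parameters
  obtain ⟨e, he⟩ : ∃ e : ℝ, e = δB / (4 * (k + 1)) := ⟨_, rfl⟩
  have hk1 : (0 : ℝ) < (k : ℝ) + 1 := by positivity
  have he0 : 0 < e := by
    rw [he]
    positivity
  have hek : (k + 1) * e = δB / 4 := by
    rw [he]
    field_simp
  have he1 : e ≤ 1 := by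
    have h1 : 1 * e ≤ (k + 1) * e := mul_le_mul_of_nonneg_right (by linarith [(Nat.cast_nonneg k : (0 : ℝ) ≤ k)]) he0.le
    linarith
  obtain ⟨C, A', hC, hBT'⟩ := hBT e he0
  obtain ⟨A, hA⟩ : ∃ A : ℕ, A = A' + 1 := ⟨_, rfl⟩
  have hBTc : BTc D e C A := by
    intro j m hm τ hτ t h h2 hmA T hT
    refine hBT' j m hm τ hτ t h h2 (le_trans ?_ hmA) T hT
    exact Nat.pow_le_pow_right (Nm_pos hS m) (by omega)
  obtain ⟨N, hN'⟩ := exists_nat_gt (4 * (1 + 2 * k * K₀) / δB)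
  have hN1 : 4 * (1 + 2 * (k : ℝ) * K₀) < δB * N := by
    rw [div_lt_iff₀ hδB] at hN'
    linarith
  have hNpos : (0 : ℝ) < N := lt_of_le_of_lt (by positivity) hN'
  have hN2 : 2 ≤ N := by
    by_contra hlt
    have h1 : (N : ℝ) ≤ 1 := by exact_mod_cast (by omega : N ≤ 1)
    have h2 : 0 ≤ 2 * (k : ℝ) * K₀ := by positivity
    nlinarith
  have hNfrac : (1 + 2 * (k : ℝ) * K₀) / N ≤ δB / 4 := by
    rw [div_le_iff₀ hNpos]
    linarith
  obtain ⟨C₁, hC₁, hE⟩ := exc_E hS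
  obtain ⟨C₂, hC₂, hF⟩ := exc_F hS hδA hTA
  obtain ⟨B₀, hB₀⟩ : ∃ B₀ : ℝ, B₀ = D.Ex.card + K₀ * (pr D 2).card + N * ((Real.log 4 + CB) + K₀ * (Real.log 4 + CM)) := ⟨_, rfl⟩
  obtain ⟨C₃, hC₃⟩ : ∃ C₃ : ℝ, C₃ = (N + 1) ^ k * (C * (1 + 16 / e * C) ^ k * 4 * Real.exp B₀) := ⟨_, rfl⟩
  have hC₃0 : 0 ≤ C₃ := by
    rw [hC₃]
    positivity
  obtain ⟨η, hη⟩ : ∃ η : ℝ, η = min (1 / (N : ℝ)) (min (δA / N) (δB / 2)) := ⟨_, rfl⟩
  have hη0 : 0 < η := by
    rw [hη]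
    exact lt_min (by positivity) (lt_min (by positivity) (by positivity))
  refine ⟨η, (N : ℝ) * (4 * A * C₁) + (N : ℝ) * (Fintype.card (Finset (Fin k)) * C₂) + C₃ + 1, hη0, by positivity, fun X hX S hSc => ?_⟩
  have hX0 : (0 : ℝ) < X := by exact_mod_cast (by omega : 0 < X)
  have hlX := log_ge_one hX
  set z := zz N X with hz
  -- the exceptional sets
  let SE : ℕ → Finset (Finset D.P) := fun κ => S.filter fun c =>
    ¬ (∏ p ∈ (pf D c).filter (fun p => D.nm p ≤ z κ), D.nm p) ^ A ≤ z (κ + 1)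
  let SF : ℕ → Finset (Fin k) → Finset (Finset D.P) := fun κ J => S.filter fun c =>
    ¬ TB D J ∧ ¬ ∃ p ∈ pf D c, sc z N (D.nm p) = κ ∧ ∀ o ∈ D.V p, D.cmp o ∉ J
  set S' := S.filter fun c =>
      (∀ κ < N, ∀ J, ¬ TB D J → ∃ p ∈ pf D c, sc z N (D.nm p) = κ ∧ ∀ o ∈ D.V p, D.cmp o ∉ J) ∧
      (∀ κ, 1 ≤ κ → κ + 1 ≤ N - 1 → (∏ p ∈ (pf D c).filter (fun p => D.nm p ≤ z κ), D.nm p) ^ A ≤ z (κ + 1)) with hS'
  have hcov : S ⊆ ((Finset.range (N - 1)).biUnion SE ∪ (Finset.range N).biUnion fun κ => Finset.univ.biUnion fun J => SF κ J) ∪ S' := by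
    intro c hc
    by_cases g1 : ∀ κ < N, ∀ J, ¬ TB D J → ∃ p ∈ pf D c, sc z N (D.nm p) = κ ∧ ∀ o ∈ D.V p, D.cmp o ∉ J
    · by_cases g2 : ∀ κ, 1 ≤ κ → κ + 1 ≤ N - 1 → (∏ p ∈ (pf D c).filter (fun p => D.nm p ≤ z κ), D.nm p) ^ A ≤ z (κ + 1)
      · exact Finset.mem_union_right _ (Finset.mem_filter.mpr ⟨hc, g1, g2⟩)
      · simp only [not_forall] at g2
        obtain ⟨κ, h1, h2, h3⟩ := g2
        refine Finset.mem_union_left _ (Finset.mem_union_left _ (Finset.mem_biUnion.mpr ⟨κ, Finset.mem_range.mpr (by omega), ?_⟩))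
        exact Finset.mem_filter.mpr ⟨hc, h3⟩
    · simp only [not_forall] at g1
      obtain ⟨κ, h1, J, h2, h3⟩ := g1
      refine Finset.mem_union_left _ (Finset.mem_union_right _ (Finset.mem_biUnion.mpr ⟨κ, Finset.mem_range.mpr h1,
        Finset.mem_biUnion.mpr ⟨J, Finset.mem_univ _, ?_⟩⟩))
      exact Finset.mem_filter.mpr ⟨hc, h2, h3⟩
  have hcard : (S.card : ℝ) ≤ (∑ κ ∈ Finset.range (N - 1), ((SE κ).card : ℝ)) +
      (∑ κ ∈ Finset.range N, ∑ J : Finset (Fin k), ((SF κ J).card : ℝ)) + S'.card := by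
    have g1 := Finset.card_le_card hcov
    have g2 := (Finset.card_union_le ((Finset.range (N - 1)).biUnion SE ∪ (Finset.range N).biUnion fun κ => Finset.univ.biUnion fun J => SF κ J) S')
    have g3 := (Finset.card_union_le ((Finset.range (N - 1)).biUnion SE) ((Finset.range N).biUnion fun κ => Finset.univ.biUnion fun J => SF κ J))
    have g4 := Finset.card_biUnion_le (s := Finset.range (N - 1)) (t := SE)
    have g5 : ((Finset.range N).biUnion fun κ => Finset.univ.biUnion fun J => SF κ J).card ≤ ∑ κ ∈ Finset.range N, ∑ J : Finset (Fin k), (SF κ J).card :=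
      Finset.card_biUnion_le.trans (Finset.sum_le_sum fun κ _ => Finset.card_biUnion_le)
    have g6 : S.card ≤ (∑ κ ∈ Finset.range (N - 1), (SE κ).card) + (∑ κ ∈ Finset.range N, ∑ J : Finset (Fin k), (SF κ J).card) + S'.card := by omega
    exact_mod_cast g6
  have b1 : ∑ κ ∈ Finset.range (N - 1), ((SE κ).card : ℝ) ≤ X * ((N : ℝ) * (4 * A * C₁) * Real.log X ^ (-(1 / (N : ℝ)))) := by
    have g : ∀ κ ∈ Finset.range (N - 1), ((SE κ).card : ℝ) ≤ 4 * A * C₁ * X * Real.log X ^ (-(1 / (N : ℝ))) := by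
      intro κ hκ
      have hκ' := Finset.mem_range.mp hκ
      refine hE N A X κ hX (by omega) (by omega) (SE κ) fun c hc => ?_
      obtain ⟨g1, g2⟩ := Finset.mem_filter.mp hc
      exact ⟨(hSc c g1).1, g2⟩
    refine (Finset.sum_le_sum g).trans ?_
    rw [Finset.sum_const, Finset.card_range, nsmul_eq_mul]
    have h1 : ((N - 1 : ℕ) : ℝ) ≤ N := by exact_mod_cast Nat.sub_le N 1
    calc ((N - 1 : ℕ) : ℝ) * (4 * A * C₁ * X * Real.log X ^ (-(1 / (N : ℝ)))) ≤ N * (4 * A * C₁ * X * Real.log X ^ (-(1 / (N : ℝ)))) :=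
          mul_le_mul_of_nonneg_right h1 (by positivity)
      _ = _ := by ring
  have b2 : ∑ κ ∈ Finset.range N, ∑ J : Finset (Fin k), ((SF κ J).card : ℝ) ≤
      X * ((N : ℝ) * (Fintype.card (Finset (Fin k)) * C₂) * Real.log X ^ (-(δA / (N : ℝ)))) := by
    have g : ∀ κ ∈ Finset.range N, ∀ J ∈ (Finset.univ : Finset (Finset (Fin k))), ((SF κ J).card : ℝ) ≤ C₂ * X * Real.log X ^ (-(δA / (N : ℝ))) := by
      intro κ hκ J _
      by_cases hJ : TB D J
      · have : SF κ J = ∅ := by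
          rw [Finset.eq_empty_iff_forall_notMem]
          intro c hc
          exact (Finset.mem_filter.mp hc).2.1 hJ
        rw [this]
        simp only [Finset.card_empty, Nat.cast_zero]
        positivity
      · have hJA : TA D J := (hTAB J).resolve_right hJ
        refine hF N X κ J hX (Finset.mem_range.mp hκ) hJA (SF κ J) fun c hc => ?_
        obtain ⟨g1, g2⟩ := Finset.mem_filter.mp hc
        exact ⟨(hSc c g1).1, g2.2⟩
    refine (Finset.sum_le_sum fun κ hκ => Finset.sum_le_sum (g κ hκ)).trans (le_of_eq ?_)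
    rw [Finset.sum_const, Finset.sum_const, Finset.card_range, Finset.card_univ, nsmul_eq_mul, nsmul_eq_mul]
    ring
  have b3 : (S'.card : ℝ) ≤ X * (C₃ * Real.log X ^ (-(δB / 2))) := by
    have g1 := main_count hS hC he0 he1 hBTc (z := z) hN2 (zz_two hX) hX (PB := TB D) (fun J hJ => hJ.1) o₀ S' (by
      intro c hc
      obtain ⟨k1, k2, k3⟩ := Finset.mem_filter.mp hc
      exact ⟨(hSc c k1).1, (hSc c k1).2, k2, k3⟩)
      (B := B₀ + ((1 - δB) + 2 * k * K₀ / N) * Real.log (Real.log X)) (by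
        intro K _ hK
        have := ap_sum hS hV hδB.le hδB1 hCB hCM hTB hMe (by omega : 0 < N) hX K hK
        rw [hB₀]
        exact this)
    refine g1.trans ?_
    rw [Real.exp_add, exp_ll hX, mul_pow, ← Real.rpow_natCast (Real.log X ^ e) k, ← Real.rpow_mul (by linarith)]
    have hLp : 0 < Real.log X := by linarith
    have g2 : 1 / 4 * Real.log X ^ ((((N - 1 : ℕ) : ℝ) / N) * (1 - e)) ≤ Real.log (z (N - 1)) ^ (1 - e) := by
      have k1 := le_log_zz (N := N) (κ := N - 1) hX (Nat.sub_le N 1)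
      have k2 : (1 / 4 * Real.log X ^ (((N - 1 : ℕ) : ℝ) / N)) ^ (1 - e) ≤ Real.log (z (N - 1)) ^ (1 - e) :=
        Real.rpow_le_rpow (by positivity) k1 (by linarith)
      rw [Real.mul_rpow (by norm_num) (by positivity), ← Real.rpow_mul hLp.le] at k2
      refine le_trans (mul_le_mul_of_nonneg_right ?_ (by positivity)) k2
      calc (1 / 4 : ℝ) = (1 / 4 : ℝ) ^ (1 : ℝ) := (Real.rpow_one _).symm
        _ ≤ (1 / 4 : ℝ) ^ (1 - e) := Real.rpow_le_rpow_of_exponent_ge (by norm_num) (by norm_num) (by linarith)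
    have g3 : 0 < Real.log X ^ ((((N - 1 : ℕ) : ℝ) / N) * (1 - e)) := by positivity
    have g4 : C * ((1 + 16 / e * C) ^ k * Real.log X ^ (e * k)) / Real.log (z (N - 1)) ^ (1 - e) ≤
        C * ((1 + 16 / e * C) ^ k * Real.log X ^ (e * k)) / (1 / 4 * Real.log X ^ ((((N - 1 : ℕ) : ℝ) / N) * (1 - e))) :=
      div_le_div_of_nonneg_left (by positivity) (by positivity) g2
    have g5 : Real.log X ^ (e * k) / Real.log X ^ ((((N - 1 : ℕ) : ℝ) / N) * (1 - e)) * Real.log X ^ ((1 - δB) + 2 * k * K₀ / N) ≤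
        Real.log X ^ (-(δB / 2)) := by
      rw [← Real.rpow_sub hLp, ← Real.rpow_add hLp]
      refine Real.rpow_le_rpow_of_exponent_le hlX ?_
      have k1 : ((N - 1 : ℕ) : ℝ) / N = 1 - 1 / N := by
        rw [Nat.cast_sub (by omega)]
        field_simp
        push_cast
        ring
      rw [k1]
      have k2 : (1 + 2 * (k : ℝ) * K₀) / N = 1 / N + 2 * k * K₀ / N := by ring
      have k3 : 0 ≤ 1 / (N : ℝ) * e := by positivity
      have k4 : (1 - 1 / (N : ℝ)) * (1 - e) = 1 - 1 / N - e + 1 / N * e := by ring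
      rw [k4]
      have k5 : e * k + e = δB / 4 := by
        rw [← hek]
        ring
      linarith
    rw [hC₃]
    calc (N + 1 : ℝ) ^ k * (C * ((1 + 16 / e * C) ^ k * Real.log X ^ (e * k)) / Real.log (z (N - 1)) ^ (1 - e) * X *
          (Real.exp B₀ * Real.log X ^ ((1 - δB) + 2 * k * K₀ / N)))
        ≤ (N + 1 : ℝ) ^ k * (C * ((1 + 16 / e * C) ^ k * Real.log X ^ (e * k)) / (1 / 4 * Real.log X ^ ((((N - 1 : ℕ) : ℝ) / N) * (1 - e))) * X *
          (Real.exp B₀ * Real.log X ^ ((1 - δB) + 2 * k * K₀ / N))) := by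
          refine mul_le_mul_of_nonneg_left ?_ (by positivity)
          refine mul_le_mul_of_nonneg_right ?_ (by positivity)
          exact mul_le_mul_of_nonneg_right g4 hX0.le
      _ = (N + 1 : ℝ) ^ k * (C * (1 + 16 / e * C) ^ k * 4 * Real.exp B₀) * X *
          (Real.log X ^ (e * k) / Real.log X ^ ((((N - 1 : ℕ) : ℝ) / N) * (1 - e)) * Real.log X ^ ((1 - δB) + 2 * k * K₀ / N)) := by
          field_simp
      _ ≤ (N + 1 : ℝ) ^ k * (C * (1 + 16 / e * C) ^ k * 4 * Real.exp B₀) * X * Real.log X ^ (-(δB / 2)) :=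
          mul_le_mul_of_nonneg_left g5 (by positivity)
      _ = _ := by ring
  have r1 : Real.log X ^ (-(1 / (N : ℝ))) ≤ Real.log X ^ (-η) := rpow_le99 hX (by rw [hη]; exact min_le_left _ _)
  have r2 : Real.log X ^ (-(δA / (N : ℝ))) ≤ Real.log X ^ (-η) :=
    rpow_le99 hX (by rw [hη]; exact (min_le_right _ _).trans (min_le_left _ _))
  have r3 : Real.log X ^ (-(δB / 2)) ≤ Real.log X ^ (-η) :=
    rpow_le99 hX (by rw [hη]; exact (min_le_right _ _).trans (min_le_right _ _))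
  have r0 : 0 < Real.log X ^ (-η) := Real.rpow_pos_of_pos (by linarith) _
  have s1 : (N : ℝ) * (4 * A * C₁) * Real.log X ^ (-(1 / (N : ℝ))) ≤ (N : ℝ) * (4 * A * C₁) * Real.log X ^ (-η) :=
    mul_le_mul_of_nonneg_left r1 (by positivity)
  have s2 : (N : ℝ) * (Fintype.card (Finset (Fin k)) * C₂) * Real.log X ^ (-(δA / (N : ℝ))) ≤
      (N : ℝ) * (Fintype.card (Finset (Fin k)) * C₂) * Real.log X ^ (-η) := mul_le_mul_of_nonneg_left r2 (by positivity)
  have s3 : C₃ * Real.log X ^ (-(δB / 2)) ≤ C₃ * Real.log X ^ (-η) := mul_le_mul_of_nonneg_left r3 hC₃0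
  have s4 : (N : ℝ) * (4 * A * C₁) * Real.log X ^ (-(1 / (N : ℝ))) +
      (N : ℝ) * (Fintype.card (Finset (Fin k)) * C₂) * Real.log X ^ (-(δA / (N : ℝ))) + C₃ * Real.log X ^ (-(δB / 2)) ≤
      ((N : ℝ) * (4 * A * C₁) + (N : ℝ) * (Fintype.card (Finset (Fin k)) * C₂) + C₃ + 1) * Real.log X ^ (-η) := by
    have e : ((N : ℝ) * (4 * A * C₁) + (N : ℝ) * (Fintype.card (Finset (Fin k)) * C₂) + C₃ + 1) * Real.log X ^ (-η) =
      (N : ℝ) * (4 * A * C₁) * Real.log X ^ (-η) + (N : ℝ) * (Fintype.card (Finset (Fin k)) * C₂) * Real.log X ^ (-η) +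
        C₃ * Real.log X ^ (-η) + Real.log X ^ (-η) := by ring
    rw [e]
    linarith
  calc (S.card : ℝ) ≤ X * ((N : ℝ) * (4 * A * C₁) * Real.log X ^ (-(1 / (N : ℝ)))) +
        X * ((N : ℝ) * (Fintype.card (Finset (Fin k)) * C₂) * Real.log X ^ (-(δA / (N : ℝ)))) + X * (C₃ * Real.log X ^ (-(δB / 2))) := by linarith
    _ = X * ((N : ℝ) * (4 * A * C₁) * Real.log X ^ (-(1 / (N : ℝ))) +
        (N : ℝ) * (Fintype.card (Finset (Fin k)) * C₂) * Real.log X ^ (-(δA / (N : ℝ))) + C₃ * Real.log X ^ (-(δB / 2))) := by ring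
    _ ≤ X * (((N : ℝ) * (4 * A * C₁) + (N : ℝ) * (Fintype.card (Finset (Fin k)) * C₂) + C₃ + 1) * Real.log X ^ (-η)) :=
        mul_le_mul_of_nonneg_left s4 hX0.le
    _ = _ := by
        rw [Real.rpow_neg (by linarith), div_eq_mul_inv]
        ring

end Pool.Agent.Helper99.HG
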