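import Pool.Agent.Helper99.HG.Cover

/-!
# Project HG (MP_e66f84_ag), the counting theorem: upper bounds for the number of integers
-/

set_option autoImplicit false

namespace Pool.Agent.Helper99.HG

open Filter Topology

variable {k : ℕ} {G : Type}

/-- the elementary inequality for the sets without elements of `T` -/
theorem hall {D : CD k G} (hS : Sys D.P D.nm) : ∃ C : ℝ, 0 < C ∧ ∀ X : ℕ, 2 ≤ X → ∀ T : Finset D.P, (∀ p ∈ T, D.nm p ≤ X) →
    ∀ S : Finset (Finset D.P), (∀ c ∈ S, Nm D c ≤ X ∧ Disjoint c T) →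
    (S.card : ℝ) ≤ C * X * Real.exp (-∑ p ∈ T, (1 : ℝ) / D.nm p) := by
  classical
  obtain ⟨C₁, hC₁⟩ := hS.cheb
  obtain ⟨C₂, hC₂⟩ := hS.mert
  have hC₁0 : 0 ≤ C₁ := by
    have := hC₁ 1 ∅ (by simp)
    simpa using this
  -- the sum of the reciprocals
  obtain ⟨C₃, hC₃⟩ : ∃ C₃ : ℝ, ∀ X : ℕ, 2 ≤ X → ∑ p ∈ pr D X, (1 : ℝ) / D.nm p ≤ Real.log (Real.log X) + C₃ := by
    refine ⟨(pr D 2).card + (-Real.log (Real.log (2 : ℕ)) + C₂), fun X hX => ?_⟩
    have h1 := hC₂ 2 X le_rfl hX ((pr D X).filter fun p => 2 < D.nm p) (by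
      intro p hp
      exact ⟨(Finset.mem_filter.mp hp).2, (mem_pr hS).mp (Finset.mem_filter.mp hp).1⟩)
    have h2 : ∑ p ∈ (pr D X).filter (fun p => ¬ 2 < D.nm p), (1 : ℝ) / D.nm p ≤ (pr D 2).card := by
      have h3 : ∑ p ∈ (pr D X).filter (fun p => ¬ 2 < D.nm p), (1 : ℝ) / D.nm p ≤ ∑ p ∈ (pr D X).filter (fun p => ¬ 2 < D.nm p), (1 : ℝ) := by
        refine Finset.sum_le_sum fun p _ => ?_
        have : (2 : ℝ) ≤ D.nm p := by exact_mod_cast hS.two p
        rw [div_le_one (by linarith)]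
        linarith
      rw [Finset.sum_const, nsmul_eq_mul, mul_one] at h3
      refine h3.trans ?_
      have h4 : (pr D X).filter (fun p => ¬ 2 < D.nm p) ⊆ pr D 2 := by
        intro p hp
        rw [mem_pr hS]
        have := (Finset.mem_filter.mp hp).2
        omega
      exact_mod_cast Finset.card_le_card h4
    rw [← Finset.sum_filter_add_sum_filter_not (pr D X) (fun p => 2 < D.nm p)]
    linarith
  refine ⟨(C₁ + 1) * Real.exp C₃, by positivity, ?_⟩
  intro X hX T hT S hSX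
  have hXp : (0 : ℝ) < X := by exact_mod_cast (by omega : 0 < X)
  have hlX : 0 < Real.log X := Real.log_pos (by exact_mod_cast (by omega : 1 < X))
  -- all admissible sets
  set A := (pr D X).powerset.filter (fun c => Nm D c ≤ X ∧ Disjoint c T) with hA
  have hSA : S ⊆ A := by
    intro c hc
    obtain ⟨h1, h2⟩ := hSX c hc
    refine Finset.mem_filter.mpr ⟨Finset.mem_powerset.mpr fun p hp => ?_, h1, h2⟩
    rw [mem_pr hS]
    exact (nm_le_Nm hS hp).trans h1
  have hcard : (S.card : ℝ) ≤ A.card := by exact_mod_cast Finset.card_le_card hSA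
  refine hcard.trans ?_
  have hpos : ∀ c : Finset D.P, (0 : ℝ) < Nm D c := fun c => by exact_mod_cast Nm_pos hS c
  -- the sum of the logarithms of the norms
  have hlog : ∀ c : Finset D.P, Real.log (Nm D c) = ∑ p ∈ c, Real.log (D.nm p) := by
    intro c
    unfold Nm
    rw [Nat.cast_prod, Real.log_prod]
    intro p _
    have := hS.two p
    exact_mod_cast (by omega : D.nm p ≠ 0)
  have hl0 : ∀ p, 0 ≤ Real.log (D.nm p) := fun p => Real.log_nonneg (by
    have := hS.two p
    exact_mod_cast (by omega : 1 ≤ D.nm p))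
  have h1 : ∑ c ∈ A, Real.log (Nm D c) ≤ ∑ m ∈ A, ∑ p ∈ pr D (X / Nm D m), Real.log (D.nm p) := by
    simp only [hlog]
    rw [Finset.sum_sigma', Finset.sum_sigma']
    have hinj : Set.InjOn (fun x : (_ : Finset D.P) × D.P => (⟨x.1.erase x.2, x.2⟩ : (_ : Finset D.P) × D.P))
        (A.sigma fun c => c : Finset ((_ : Finset D.P) × D.P)) := by
      rintro ⟨c, p⟩ h ⟨c', p'⟩ h' e
      have e1 : c.erase p = c'.erase p' := congrArg Sigma.fst e
      have e2 : p = p' := by
        have := congrArg Sigma.snd e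
        simpa using this
      subst e2
      have g1 := (Finset.mem_sigma.mp (Finset.mem_coe.mp h)).2
      have g2 := (Finset.mem_sigma.mp (Finset.mem_coe.mp h')).2
      simp only at g1 g2
      have : c = c' := by rw [← Finset.insert_erase g1, ← Finset.insert_erase g2, e1]
      rw [this]
    calc ∑ x ∈ A.sigma fun c => c, Real.log (D.nm x.2) =
        ∑ y ∈ (A.sigma fun c => c).image (fun x : (_ : Finset D.P) × D.P => (⟨x.1.erase x.2, x.2⟩ : (_ : Finset D.P) × D.P)),
          Real.log (D.nm y.2) := by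
          rw [Finset.sum_image hinj]
      _ ≤ _ := by
        refine Finset.sum_le_sum_of_subset_of_nonneg ?_ fun y _ _ => hl0 _
        intro y hy
        obtain ⟨⟨c, p⟩, hx, rfl⟩ := Finset.mem_image.mp hy
        obtain ⟨g1, g2⟩ := Finset.mem_sigma.mp hx
        simp only at g1 g2
        obtain ⟨g3, g4, g5⟩ := Finset.mem_filter.mp g1
        have e : D.nm p * Nm D (c.erase p) = Nm D c := Finset.mul_prod_erase c D.nm g2
        refine Finset.mem_sigma.mpr ⟨Finset.mem_filter.mpr ⟨?_, ?_, ?_⟩, ?_⟩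
        · exact Finset.mem_powerset.mpr ((Finset.erase_subset _ _).trans (Finset.mem_powerset.mp g3))
        · refine le_trans (Nat.le_of_dvd (Nm_pos hS c) ⟨D.nm p, ?_⟩) g4
          simp only
          rw [← e]
          ring
        · exact Finset.disjoint_of_subset_left (Finset.erase_subset _ _) g5
        · simp only
          rw [mem_pr hS, Nat.le_div_iff_mul_le (Nm_pos hS _), e]
          exact g4
  have h2 : ∑ c ∈ A, Real.log (Nm D c) ≤ C₁ * X * ∑ m ∈ A, (1 : ℝ) / Nm D m := by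
    refine h1.trans ?_
    rw [Finset.mul_sum]
    refine Finset.sum_le_sum fun m _ => ?_
    refine (hC₁ (X / Nm D m) (pr D (X / Nm D m)) fun p hp => (mem_pr hS).mp hp).trans ?_
    have g : ((X / Nm D m : ℕ) : ℝ) ≤ X / Nm D m := Nat.cast_div_le
    calc C₁ * ((X / Nm D m : ℕ) : ℝ) ≤ C₁ * (X / Nm D m) := mul_le_mul_of_nonneg_left g hC₁0
      _ = _ := by ring
  have h3 : ∑ c ∈ A, (Real.log X - Real.log (Nm D c)) ≤ X * ∑ m ∈ A, (1 : ℝ) / Nm D m := by
    rw [Finset.mul_sum]
    refine Finset.sum_le_sum fun c _ => ?_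
    rw [← Real.log_div hXp.ne' (hpos c).ne', mul_one_div]
    have := Real.log_le_sub_one_of_pos (div_pos hXp (hpos c))
    linarith
  have h4 : (A.card : ℝ) * Real.log X ≤ (C₁ + 1) * X * ∑ m ∈ A, (1 : ℝ) / Nm D m := by
    rw [Finset.sum_sub_distrib, Finset.sum_const, nsmul_eq_mul] at h3
    linarith
  -- the Euler product
  have h5 : ∑ m ∈ A, (1 : ℝ) / Nm D m ≤ Real.exp (∑ p ∈ pr D X \ T, (1 : ℝ) / D.nm p) := by
    have e1 : ∀ m : Finset D.P, (1 : ℝ) / Nm D m = ∏ p ∈ m, (1 : ℝ) / D.nm p := by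
      intro m
      unfold Nm
      rw [Finset.prod_div_distrib, Finset.prod_const_one, Nat.cast_prod]
    simp only [e1]
    calc ∑ m ∈ A, ∏ p ∈ m, (1 : ℝ) / D.nm p ≤ ∑ m ∈ (pr D X \ T).powerset, ∏ p ∈ m, (1 : ℝ) / D.nm p := by
          refine Finset.sum_le_sum_of_subset_of_nonneg ?_ fun s _ _ => Finset.prod_nonneg fun p _ => by positivity
          intro m hm
          obtain ⟨g1, g2, g3⟩ := Finset.mem_filter.mp hm
          rw [Finset.mem_powerset] at g1 ⊢
          intro p hp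
          exact Finset.mem_sdiff.mpr ⟨g1 hp, fun h => Finset.disjoint_left.mp g3 hp h⟩
      _ = ∏ p ∈ pr D X \ T, (1 + (1 : ℝ) / D.nm p) := by rw [Finset.prod_one_add]
      _ ≤ ∏ p ∈ pr D X \ T, Real.exp ((1 : ℝ) / D.nm p) := by
          refine Finset.prod_le_prod (fun p _ => by positivity) fun p _ => ?_
          rw [add_comm]
          exact Real.add_one_le_exp _
      _ = _ := by rw [Real.exp_sum]
  have h6 : ∑ p ∈ pr D X \ T, (1 : ℝ) / D.nm p ≤ Real.log (Real.log X) + C₃ - ∑ p ∈ T, (1 : ℝ) / D.nm p := by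
    have hTX : T ⊆ pr D X := fun p hp => (mem_pr hS).mpr (hT p hp)
    have g1 := Finset.sum_sdiff hTX (f := fun p => (1 : ℝ) / D.nm p)
    have g2 := hC₃ X hX
    linarith
  have h7 : Real.exp (∑ p ∈ pr D X \ T, (1 : ℝ) / D.nm p) ≤ Real.log X * (Real.exp C₃ * Real.exp (-∑ p ∈ T, (1 : ℝ) / D.nm p)) := by
    calc Real.exp (∑ p ∈ pr D X \ T, (1 : ℝ) / D.nm p) ≤ Real.exp (Real.log (Real.log X) + (C₃ + -∑ p ∈ T, (1 : ℝ) / D.nm p)) :=
          Real.exp_le_exp.mpr (by linarith)
      _ = _ := by rw [Real.exp_add, Real.exp_add, Real.exp_log hlX]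
  have h8 : (A.card : ℝ) * Real.log X ≤ ((C₁ + 1) * Real.exp C₃ * X * Real.exp (-∑ p ∈ T, (1 : ℝ) / D.nm p)) * Real.log X := by
    calc (A.card : ℝ) * Real.log X ≤ (C₁ + 1) * X * (Real.log X * (Real.exp C₃ * Real.exp (-∑ p ∈ T, (1 : ℝ) / D.nm p))) :=
          h4.trans (mul_le_mul_of_nonneg_left (h5.trans h7) (by positivity))
      _ = _ := by ring
  exact le_of_mul_le_mul_right h8 hlX

/-- the number of sets with bounded norm -/
theorem count_le {D : CD k G} (hS : Sys D.P D.nm) : ∃ C : ℝ, 0 < C ∧ ∀ X : ℕ, ∀ S : Finset (Finset D.P), (∀ c ∈ S, Nm D c ≤ X) →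
    (S.card : ℝ) ≤ C * X := by
  obtain ⟨C, hC, h⟩ := hall hS
  refine ⟨C + 1, by linarith, fun X S hSX => ?_⟩
  have hXn : (0 : ℝ) ≤ X := Nat.cast_nonneg X
  rcases Nat.lt_or_ge X 2 with h2 | h2
  · have h3 : S ⊆ {∅} := by
      intro c hc
      rw [Finset.mem_singleton]
      by_contra hne
      obtain ⟨p, hp⟩ := Finset.nonempty_iff_ne_empty.mpr hne
      have := nm_le_Nm hS hp
      have := hS.two p
      have := hSX c hc
      omega
    rcases Finset.subset_singleton_iff.mp h3 with h4 | h4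
    · rw [h4]
      simp only [Finset.card_empty, Nat.cast_zero]
      positivity
    · have h5 : 1 ≤ X := by
        have := hSX ∅ (by rw [h4]; exact Finset.mem_singleton_self _)
        simpa [Nm] using this
      rw [h4]
      simp only [Finset.card_singleton, Nat.cast_one]
      have h6 : (1 : ℝ) ≤ X := by exact_mod_cast h5
      nlinarith
  · have h3 := h X h2 ∅ (by simp) S (fun c hc => ⟨hSX c hc, Finset.disjoint_empty_right c⟩)
    simp only [Finset.sum_empty, neg_zero, Real.exp_zero, mul_one] at h3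
    linarith

/-- the dyadic consequence of the bound of Chebyshev -/
theorem log_div {D : CD k G} (hS : Sys D.P D.nm) : ∃ C : ℝ, 0 < C ∧ ∀ z : ℕ, 2 ≤ z →
    ∑ p ∈ pr D z, Real.log (D.nm p) / D.nm p ≤ C * Real.log z := by
  classical
  obtain ⟨C₁, hC₁⟩ := hS.cheb
  have hC₁0 : 0 ≤ C₁ := by
    have := hC₁ 1 ∅ (by simp)
    simpa using this
  refine ⟨8 * C₁ + 1, by linarith, fun z hz => ?_⟩
  set L := Nat.log 2 z with hL
  have hl0 : ∀ p, 0 ≤ Real.log (D.nm p) := fun p => Real.log_nonneg (by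
    have := hS.two p
    exact_mod_cast (by omega : 1 ≤ D.nm p))
  have hmaps : ∀ p ∈ pr D z, Nat.log 2 (D.nm p) ∈ Finset.range (L + 1) := by
    intro p hp
    rw [Finset.mem_range, Nat.lt_succ_iff]
    exact Nat.log_mono_right ((mem_pr hS).mp hp)
  rw [← Finset.sum_fiberwise_of_maps_to hmaps]
  have h1 : ∀ i ∈ Finset.range (L + 1), ∑ p ∈ (pr D z).filter (fun p => Nat.log 2 (D.nm p) = i), Real.log (D.nm p) / D.nm p ≤ 2 * C₁ := by
    intro i _
    have h2 : ∑ p ∈ (pr D z).filter (fun p => Nat.log 2 (D.nm p) = i), Real.log (D.nm p) / D.nm p ≤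
        ∑ p ∈ (pr D z).filter (fun p => Nat.log 2 (D.nm p) = i), Real.log (D.nm p) / 2 ^ i := by
      refine Finset.sum_le_sum fun p hp => ?_
      have g := (Finset.mem_filter.mp hp).2
      have g1 : 2 ^ i ≤ D.nm p := by
        rw [← g]
        exact Nat.pow_log_le_self 2 (by have := hS.two p; omega)
      have g2 : (2 : ℝ) ^ i ≤ D.nm p := by exact_mod_cast g1
      exact div_le_div_of_nonneg_left (hl0 p) (by positivity) g2
    refine h2.trans ?_
    rw [← Finset.sum_div, div_le_iff₀ (by positivity)]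
    have h3 := hC₁ (2 ^ (i + 1)) ((pr D z).filter (fun p => Nat.log 2 (D.nm p) = i)) (by
      intro p hp
      have g := (Finset.mem_filter.mp hp).2
      rw [← g]
      exact (Nat.lt_pow_succ_log_self (by norm_num) _).le)
    refine h3.trans (le_of_eq ?_)
    push_cast
    ring
  refine (Finset.sum_le_sum h1).trans ?_
  rw [Finset.sum_const, Finset.card_range, nsmul_eq_mul]
  have hz' : (0 : ℝ) < z := by exact_mod_cast (by omega : 0 < z)
  have h2 : (L : ℝ) * Real.log 2 ≤ Real.log z := by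
    have h3 : (2 : ℝ) ^ L ≤ z := by exact_mod_cast Nat.pow_log_le_self 2 (by omega : z ≠ 0)
    have h4 := Real.log_le_log (by positivity) h3
    rwa [Real.log_pow] at h4
  have h3 : Real.log 2 ≤ Real.log z := Real.log_le_log (by norm_num) (by exact_mod_cast hz)
  have h4 := Real.log_two_gt_d9
  have h5 : ((L + 1 : ℕ) : ℝ) ≤ 4 * Real.log z := by
    push_cast
    have : (L : ℝ) ≥ 0 := Nat.cast_nonneg L
    nlinarith
  calc ((L + 1 : ℕ) : ℝ) * (2 * C₁) ≤ 4 * Real.log z * (2 * C₁) := mul_le_mul_of_nonneg_right h5 (by linarith)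
    _ ≤ (8 * C₁ + 1) * Real.log z := by nlinarith

/-- few sets have a large smooth part -/
theorem smooth {D : CD k G} (hS : Sys D.P D.nm) : ∃ C : ℝ, 0 < C ∧ ∀ z X : ℕ, 2 ≤ z → ∀ T : ℝ, 0 < T →
    ∀ S : Finset (Finset D.P), (∀ c ∈ S, Nm D c ≤ X ∧ T ≤ ∑ p ∈ c.filter (fun p => D.nm p ≤ z), Real.log (D.nm p)) →
    (S.card : ℝ) ≤ C * X * (Real.log z / T) := by
  classical
  obtain ⟨C₁, hC₁, hcount⟩ := count_le hS
  obtain ⟨C₂, hC₂, hld⟩ := log_div hS
  refine ⟨C₁ * C₂, by positivity, fun z X hz T hT S hSX => ?_⟩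
  have hl0 : ∀ p, 0 ≤ Real.log (D.nm p) := fun p => Real.log_nonneg (by
    have := hS.two p
    exact_mod_cast (by omega : 1 ≤ D.nm p))
  have h1 : (S.card : ℝ) * T ≤ ∑ c ∈ S, ∑ p ∈ c.filter (fun p => D.nm p ≤ z), Real.log (D.nm p) := by
    rw [← nsmul_eq_mul, ← Finset.sum_const]
    exact Finset.sum_le_sum fun c hc => (hSX c hc).2
  have h2 : ∑ c ∈ S, ∑ p ∈ c.filter (fun p => D.nm p ≤ z), Real.log (D.nm p) =
      ∑ p ∈ pr D z, ∑ c ∈ S.filter (fun c => p ∈ c), Real.log (D.nm p) := by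
    refine Finset.sum_comm' ?_
    intro c p
    rw [Finset.mem_filter, Finset.mem_filter, mem_pr hS]
    tauto
  have h3 : ∀ p ∈ pr D z, ∑ c ∈ S.filter (fun c => p ∈ c), Real.log (D.nm p) ≤ C₁ * X * (Real.log (D.nm p) / D.nm p) := by
    intro p _
    rw [Finset.sum_const, nsmul_eq_mul]
    have hp2 := hS.two p
    have h4 : ((S.filter (fun c => p ∈ c)).card : ℝ) ≤ C₁ * ((X / D.nm p : ℕ) : ℝ) := by
      have h5 : (S.filter (fun c => p ∈ c)).card = ((S.filter (fun c => p ∈ c)).image fun c => c.erase p).card := by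
        rw [Finset.card_image_of_injOn]
        intro c hc c' hc' e
        have g1 := (Finset.mem_filter.mp (Finset.mem_coe.mp hc)).2
        have g2 := (Finset.mem_filter.mp (Finset.mem_coe.mp hc')).2
        have e' : c.erase p = c'.erase p := e
        rw [← Finset.insert_erase g1, ← Finset.insert_erase g2, e']
      rw [h5]
      refine hcount _ _ ?_
      intro c' hc'
      obtain ⟨c, hc, rfl⟩ := Finset.mem_image.mp hc'
      obtain ⟨g1, g2⟩ := Finset.mem_filter.mp hc
      rw [Nat.le_div_iff_mul_le (by omega)]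
      have e : Nm D (c.erase p) * D.nm p = Nm D c := Finset.prod_erase_mul c D.nm g2
      rw [e]
      exact (hSX c g1).1
    have h5 : ((X / D.nm p : ℕ) : ℝ) ≤ X / D.nm p := Nat.cast_div_le
    calc ((S.filter (fun c => p ∈ c)).card : ℝ) * Real.log (D.nm p) ≤ C₁ * (X / D.nm p) * Real.log (D.nm p) :=
          mul_le_mul_of_nonneg_right (h4.trans (mul_le_mul_of_nonneg_left h5 hC₁.le)) (hl0 p)
      _ = _ := by ring
  have h4 : (S.card : ℝ) * T ≤ C₁ * X * (C₂ * Real.log z) := by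
    rw [h2] at h1
    refine h1.trans ((Finset.sum_le_sum h3).trans ?_)
    rw [← Finset.mul_sum]
    exact mul_le_mul_of_nonneg_left (hld z hz) (by positivity)
  calc (S.card : ℝ) = (S.card : ℝ) * T / T := by field_simp
    _ ≤ C₁ * X * (C₂ * Real.log z) / T := div_le_div_of_nonneg_right h4 hT.le
    _ = _ := by ring

end Pool.Agent.Helper99.HG
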