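import Pool.Agent.Helper91.Section.Basic

/-!
# Project HG (MP_e66f84_ag), the counting theorem: definitions and statement
-/

set_option autoImplicit false

namespace Pool.Agent.Helper99.HG

open Filter Topology

/-- The data of the counting problem.  `P`: the primes, `nm`: their norms; `Ex`: the excluded
primes; `V p`: the options at the prime `p` (a root of the polynomial modulo `p` and more);
`cmp o`: the component of the root; `I p o j`: the conditions at `p` which concern the component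
`j` (the primes above `p` of the field of the component `j`, other than the one of the root of the
option `o`); `χ p i q o`: the class at the condition `i` of the prime `p` of the number which
belongs to the prime `q` and the option `o`; `g p o i`: the prescribed product. -/
structure CD (k : ℕ) (G : Type) where
  P : Type
  nm : P → ℕ
  Ex : Finset P
  O : Type
  ι : Type
  V : P → Finset O
  cmp : O → Fin k
  I : P → O → Fin k → Finset ι
  χ : P → ι → P → O → G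
  g : P → O → ι → G

variable {k : ℕ} {G : Type}

open Classical in
/-- the primes in `c` which are not excluded -/
noncomputable def pf (D : CD k G) (c : Finset D.P) : Finset D.P := c.filter fun p => p ∉ D.Ex

/-- the norm of the product -/
def Nm (D : CD k G) (c : Finset D.P) : ℕ := ∏ p ∈ c, D.nm p

open Classical in
/-- the condition on `c` -/
def Bad [CommGroup G] (D : CD k G) (c : Finset D.P) : Prop :=
  ∃ τ : D.P → D.O, ∀ p ∈ pf D c, τ p ∈ D.V p ∧ ∀ j, ∀ i ∈ D.I p (τ p) j,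
    ∏ q ∈ (pf D c).filter (fun q => q ≠ p ∧ D.cmp (τ q) = j), D.χ p i q (τ q) = D.g p (τ p) i

/-- few primes satisfy the conditions -/
def BT (D : CD k G) : Prop :=
  ∀ ε : ℝ, 0 < ε → ∃ (C : ℝ) (A : ℕ), 0 < C ∧ ∀ (j : Fin k) (m : Finset D.P), (∀ p ∈ m, p ∉ D.Ex) →
    ∀ τ : D.P → D.O, (∀ p ∈ m, τ p ∈ D.V p) → ∀ t : D.P → D.ι → G, ∀ h : ℕ, 2 ≤ h → Nm D m ^ A ≤ h →
    ∀ S : Finset D.P, (∀ Q ∈ S, Q ∉ D.Ex ∧ Q ∉ m ∧ D.nm Q ≤ h ∧
      ∃ o ∈ D.V Q, D.cmp o = j ∧ ∀ p ∈ m, ∀ i ∈ D.I p (τ p) j, D.χ p i Q o = t p i) →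
    (S.card : ℝ) ≤ C * (∏ p ∈ m, (1 / 2 : ℝ) ^ (D.I p (τ p) j).card) * (h / Real.log h ^ (1 - ε))

/-- the weight of the prime `p` for the set of components `J` -/
noncomputable def WJ (D : CD k G) (J : Finset (Fin k)) (p : D.P) : ℝ :=
  ∑ o ∈ (D.V p).filter (fun o => D.cmp o ∈ J), (1 / 2 : ℝ) ^ (∑ j ∈ J, (D.I p o j).card)

/-- the primes without options with components in `J` have positive density -/
def TA (D : CD k G) (J : Finset (Fin k)) : Prop :=
  ∃ δ C : ℝ, 0 < δ ∧ ∀ y x : ℕ, 2 ≤ y → y ≤ x → ∀ S : Finset D.P,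
    (∀ p, p ∈ S ↔ p ∉ D.Ex ∧ y < D.nm p ∧ D.nm p ≤ x ∧ ∀ o ∈ D.V p, D.cmp o ∉ J) →
    δ * (Real.log (Real.log x) - Real.log (Real.log y)) - C ≤ ∑ p ∈ S, (1 : ℝ) / D.nm p

/-- the weights are less than `1` in the mean -/
def TB (D : CD k G) (J : Finset (Fin k)) : Prop :=
  J.Nonempty ∧ ∃ δ C : ℝ, 0 < δ ∧ ∀ y x : ℕ, 2 ≤ y → y ≤ x → ∀ S : Finset D.P,
    (∀ p, p ∈ S ↔ p ∉ D.Ex ∧ y < D.nm p ∧ D.nm p ≤ x) →
    ∑ p ∈ S, WJ D J p / D.nm p ≤ (1 - δ) * (Real.log (Real.log x) - Real.log (Real.log y)) + C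

/-- elementary facts on the distribution of the primes -/
structure Sys (P : Type) (nm : P → ℕ) : Prop where
  two : ∀ p, 2 ≤ nm p
  fin : ∀ x : ℕ, {p | nm p ≤ x}.Finite
  cheb : ∃ C : ℝ, ∀ x : ℕ, ∀ S : Finset P, (∀ p ∈ S, nm p ≤ x) → ∑ p ∈ S, Real.log (nm p) ≤ C * x
  mert : ∃ C : ℝ, ∀ y x : ℕ, 2 ≤ y → y ≤ x → ∀ S : Finset P, (∀ p ∈ S, y < nm p ∧ nm p ≤ x) →
    ∑ p ∈ S, (1 : ℝ) / nm p ≤ Real.log (Real.log x) - Real.log (Real.log y) + C

/-- The counting theorem. -/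
def StmtCount : Prop :=
  ∀ (k : ℕ) (G : Type) [CommGroup G] (D : CD k G), Sys D.P D.nm → (∃ K : ℕ, ∀ p, (D.V p).card ≤ K) → BT D →
    (∀ J : Finset (Fin k), TA D J ∨ TB D J) →
    ∀ ε : ℝ, 0 < ε → ∀ᶠ X : ℕ in atTop, ∀ S : Finset (Finset D.P),
      (∀ c ∈ S, Nm D c ≤ X ∧ Bad D c) → (S.card : ℝ) ≤ ε * X

end Pool.Agent.Helper99.HG
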