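import Pool.Agent.Helper13.HG.Ctx

/-!
# Project HG (MP_e66f84_ag): the final theorem from the blocks
-/

set_option autoImplicit false

namespace Pool.Agent.HG

open Polynomial NumberField IsDedekindDomain Filter Topology

section fib

variable {k : Type} [Field k] [NumberField k]

private theorem fin_val99 {c : k} (hc : c ≠ 0) : {v : Pr k | v.valuation k c ≠ 1}.Finite := by
  have h1 := HeightOneSpectrum.Support.finite (𝓞 k) c
  have h2 := HeightOneSpectrum.Support.finite (𝓞 k) c⁻¹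
  refine (h1.union h2).subset ?_
  intro v hv
  have h0 : v.valuation k c ≠ 0 := val_ne_zero v hc
  rcases lt_or_gt_of_ne (show v.valuation k c ≠ 1 from hv) with h | h
  · right
    show 1 < v.valuation k c⁻¹
    rw [map_inv₀, one_lt_inv₀ (zero_lt_iff.2 h0)]
    exact h
  · left
    exact h

private theorem ne_one99 {v : Pr k} {c : k} (h : IsOdd v c) : v.valuation k c ≠ 1 := by
  intro h1
  apply h 1
  rw [map_one, one_pow, h1]

/-- parity and the exponent of a uniformizer -/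
private theorem odd_iff99 {p : ℕ} {v : Pr k} (hp : p.Prime) (hpv : (p : 𝓞 k) ∈ v.asIdeal)
    (hu : ∀ z : k, z ≠ 0 → ∃ a : ℤ, v.valuation k (z * (p : k) ^ a) = 1) {c : k} (hc : c ≠ 0) {a : ℤ}
    (ha : v.valuation k (c * (p : k) ^ a) = 1) : IsOdd v c ↔ Odd a := by
  have hp0 : (p : k) ≠ 0 := by exact_mod_cast hp.ne_zero
  obtain ⟨π, hπ⟩ : ∃ π, π = v.valuation k (p : k) := ⟨_, rfl⟩
  have hπ0 : π ≠ 0 := by
    rw [hπ]
    exact val_ne_zero v hp0
  have hπ1 : π < 1 := by
    rw [hπ]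
    have h := (val_int_lt v (p : 𝓞 k)).2 hpv
    simpa using h
  have hval : ∀ (z : k) (b : ℤ), v.valuation k (z * (p : k) ^ b) = 1 → v.valuation k z = π ^ (-b) := by
    intro z b h
    rw [map_mul, map_zpow₀, ← hπ] at h
    rw [zpow_neg]
    exact eq_inv_of_mul_eq_one_left h
  have hca := hval c a ha
  constructor
  · intro h
    by_contra hodd
    rw [Int.not_odd_iff_even] at hodd
    obtain ⟨b, hb⟩ := hodd
    apply h ((p : k) ^ (-b))
    rw [hca, map_zpow₀, ← hπ, hb, ← zpow_natCast, ← zpow_mul]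
    congr 1
    push_cast
    ring
  · intro hodd d hd
    have hd0 : d ≠ 0 := by
      rintro rfl
      rw [map_zero, zero_pow two_ne_zero] at hd
      exact val_ne_zero v hc hd
    obtain ⟨b, hb⟩ := hu d hd0
    have hdb := hval d b hb
    rw [hca, hdb, ← zpow_natCast, ← zpow_mul] at hd
    have hinj := zpow_right_injective₀ (zero_lt_iff.2 hπ0) hπ1.ne
    have e : -a = -b * ((2 : ℕ) : ℤ) := hinj hd
    obtain ⟨w, hw⟩ := hodd
    push_cast at e
    omega

/-- the fibres of the map to the sets of primes with odd valuation are finite -/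
private theorem fib99 {M : ℕ} {F : Finset k}
    (hF : ∀ z : k, z ≠ 0 → (∀ (p : ℕ) (v : Pr k), p.Prime → ¬ p ∣ M → (p : 𝓞 k) ∈ v.asIdeal → Ev v p z) →
      ∃ e ∈ F, ∃ d : k, z = e * d ^ 2)
    (hu : ∀ (p : ℕ) (v : Pr k), p.Prime → ¬ p ∣ M → (p : 𝓞 k) ∈ v.asIdeal → ∀ z : k, z ≠ 0 →
      ∃ a : ℤ, v.valuation k (z * (p : k) ^ a) = 1)
    (T : Finset k) (h0 : ∀ c ∈ T, c ≠ 0) (hT : ∀ c ∈ T, ∀ c' ∈ T, (∃ d : k, c = c' * d ^ 2) → c = c')
    (hodd : ∀ c ∈ T, ∀ c' ∈ T, ∀ v : Pr k, Gd M v → (IsOdd v c ↔ IsOdd v c')) : T.card ≤ F.card := by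
  classical
  rcases Finset.eq_empty_or_nonempty T with he | ⟨c₀, hc₀⟩
  · rw [he]
    simp
  have hc₀0 := h0 c₀ hc₀
  have h1 : ∀ c ∈ T, ∃ e ∈ F, ∃ d : k, c * c₀ = e * d ^ 2 := by
    intro c hc
    have hc0 := h0 c hc
    refine hF (c * c₀) (mul_ne_zero hc0 hc₀0) ?_
    intro p v hp hpM hpv
    obtain ⟨a, ha⟩ := hu p v hp hpM hpv c hc0
    obtain ⟨b, hb⟩ := hu p v hp hpM hpv c₀ hc₀0
    have i1 := odd_iff99 hp hpv (hu p v hp hpM hpv) hc0 ha
    have i2 := odd_iff99 hp hpv (hu p v hp hpM hpv) hc₀0 hb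
    have i3 := hodd c hc c₀ hc₀ v ⟨p, hp, hpM, hpv⟩
    have i4 : Odd a ↔ Odd b := by rw [← i1, ← i2, i3]
    have i5 : Even (a + b) := by
      rw [Int.even_add, ← Int.not_odd_iff_even, ← Int.not_odd_iff_even, i4]
    obtain ⟨w, hw⟩ := i5
    refine ⟨w, ?_⟩
    have hp0 : (p : k) ≠ 0 := by exact_mod_cast hp.ne_zero
    have e : c * c₀ * (p : k) ^ (2 * w) = (c * (p : k) ^ a) * (c₀ * (p : k) ^ b) := by
      have : (p : k) ^ (2 * w) = (p : k) ^ a * (p : k) ^ b := by
        rw [← zpow_add₀ hp0, hw]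
        congr 1
        ring
      rw [this]
      ring
    rw [e, map_mul, ha, hb, one_mul]
  choose! e he d hd using h1
  refine Finset.card_le_card_of_injOn e he ?_
  intro c hc c' hc' hee
  have hc0 := h0 c hc
  have hc0' := h0 c' hc'
  have g1 := hd c hc
  have g2 := hd c' hc'
  have hd' : d c' ≠ 0 := by
    intro h
    rw [h] at g2
    have : c' * c₀ ≠ 0 := mul_ne_zero hc0' hc₀0
    apply this
    rw [g2]
    ring
  have he' : e c' ≠ 0 := by
    intro h
    rw [h] at g2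
    have : c' * c₀ ≠ 0 := mul_ne_zero hc0' hc₀0
    apply this
    rw [g2]
    ring
  refine hT c hc c' hc' ⟨d c / d c', ?_⟩
  have g3 : c * c₀ * (d c') ^ 2 = c' * c₀ * (d c) ^ 2 := by
    have hee' : e c = e c' := hee
    rw [g1, g2, hee']
    ring
  have g4 : c * (d c') ^ 2 = c' * (d c) ^ 2 := by
    apply mul_right_cancel₀ hc₀0
    linear_combination g3
  field_simp
  exact g4

end fib

open scoped Classical in
theorem g5 : StmtG5 := by
  intro hA hSel hCount hG1 hG2 hG3 hG4 hThue hBTL hMert hSplit hDer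
  intro k _ _ f hsep heven hdeg hroot ε hε
  -- the splitting field
  let L := f.SplittingField
  have : NumberField L := NumberField.of_module_finite k L
  have : IsGalois k L := IsGalois.of_separable_splitting_field hsep
  have hsplit : (f.map (algebraMap k L)).Splits := SplittingField.splits f
  obtain ⟨MA, hMA, hsec⟩ := hA k f heven hdeg hsep L hsplit
  obtain ⟨X, hMX, hm, hfin⟩ := hG4 hThue k L f hsep hsplit hdeg MA hMA
  obtain ⟨H, hH, g, hg⟩ := hG1 hSel k L f X heven hdeg MA hsec hMX hm hfin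
  have : Fintype H := Fintype.ofFinite H
  obtain ⟨F, _, hF⟩ := hSel k k (⊤ : IntermediateField k k) X.M X.hM
  have hF' : ∀ z : k, z ≠ 0 → (∀ (p : ℕ) (v : Pr k), p.Prime → ¬ p ∣ X.M → (p : 𝓞 k) ∈ v.asIdeal → Ev v p z) →
      ∃ e ∈ F, ∃ d : k, z = e * d ^ 2 := by
    intro z hz h
    obtain ⟨e, he, d, _, hd⟩ := hF z IntermediateField.mem_top hz h
    exact ⟨e, he, d, hd⟩
  -- the counting theorem
  obtain ⟨δ, hδ⟩ : ∃ δ : ℝ, δ = ε / ((F.card + 1) * (Fintype.card H + 1)) := ⟨_, rfl⟩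
  have hδ0 : 0 < δ := by
    rw [hδ]
    positivity
  have hcount : ∀ h : H, ∀ᶠ Y : ℕ in atTop, ∀ S : Finset (Finset (Pr k)),
      (∀ c ∈ S, Pool.Agent.Helper99.HG.Nm (X.cd hm hfin (g h)) c ≤ Y ∧ Pool.Agent.Helper99.HG.Bad (X.cd hm hfin (g h)) c) →
      (S.card : ℝ) ≤ δ * Y := by
    intro h
    obtain ⟨a1, a2, a3⟩ := hG3 hMert hSplit hDer k L f X hroot hm hfin (g h)
    exact hCount X.m ℤˣ (X.cd hm hfin (g h)) a1 a2 (hG2 hBTL hMert k L f X hm hfin (g h)) a3 δ hδ0
  have hall := eventually_all.2 hcount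
  filter_upwards [hall] with Y hY
  intro T hT hTc
  -- the sets of primes
  have hnm1 : ∀ v : Pr k, 0 < nm v := by
    intro v
    unfold nm
    rw [Nat.pos_iff_ne_zero, Ne, Ideal.absNorm_eq_zero_iff]
    exact v.ne_bot
  have hset : ∀ c : k, ∃ S : Finset (Pr k), c ≠ 0 → ∀ v, v ∈ S ↔ Gd X.M v ∧ IsOdd v c := by
    intro c
    by_cases hc : c = 0
    · exact ⟨∅, fun h => absurd hc h⟩
    · have hfin' : {v : Pr k | Gd X.M v ∧ IsOdd v c}.Finite :=
        (fin_val99 hc).subset fun v hv => ne_one99 hv.2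
      exact ⟨hfin'.toFinset, fun _ v => by simp⟩
  choose S hS using hset
  have hNm : ∀ c ∈ T, ∏ v ∈ S c, nm v ≤ Y := by
    intro c hc
    obtain ⟨hc0, hcY, _⟩ := hTc c hc
    refine le_trans ?_ hcY
    unfold cond
    have hsub : Function.mulSupport (fun v : Pr k => if IsOdd v c then nm v else 1) ⊆ ((fin_val99 hc0).toFinset : Set (Pr k)) := by
      intro v hv
      rw [Set.Finite.coe_toFinset]
      have h1 : IsOdd v c := by
        by_contra h
        exact hv (if_neg h)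
      exact ne_one99 h1
    rw [finprod_eq_prod_of_mulSupport_subset _ hsub]
    have h2 : ∏ v ∈ S c, nm v = ∏ v ∈ S c, (if IsOdd v c then nm v else 1) := by
      refine Finset.prod_congr rfl fun v hv => ?_
      rw [if_pos ((hS c hc0 v).1 hv).2]
    rw [h2]
    refine Nat.le_of_dvd (Finset.prod_pos fun v _ => ?_) (Finset.prod_dvd_prod_of_subset _ _ _ ?_)
    · split_ifs
      · exact hnm1 v
      · exact one_pos
    · intro v hv
      rw [Set.Finite.mem_toFinset]
      exact ne_one99 ((hS c hc0 v).1 hv).2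
  -- the image
  have hfib : T.card ≤ F.card * (T.image S).card := by
    refine Finset.card_le_mul_card_image (f := S) T F.card ?_
    intro A hA'
    refine fib99 hF' X.unif (T.filter fun c => S c = A) (fun c hc => (hTc c (Finset.mem_filter.1 hc).1).1) ?_ ?_
    · intro c hc c' hc' h
      exact hT c (Finset.mem_filter.1 hc).1 c' (Finset.mem_filter.1 hc').1 h
    · intro c hc c' hc' v hv
      obtain ⟨h1, h2⟩ := Finset.mem_filter.1 hc
      obtain ⟨h3, h4⟩ := Finset.mem_filter.1 hc'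
      have i1 := hS c (hTc c h1).1 v
      have i2 := hS c' (hTc c' h3).1 v
      rw [h2] at i1
      rw [h4] at i2
      constructor
      · intro h
        exact (i2.1 (i1.2 ⟨hv, h⟩)).2
      · intro h
        exact (i1.1 (i2.2 ⟨hv, h⟩)).2
  have himg : ((T.image S).card : ℝ) ≤ Fintype.card H * (δ * Y) := by
    have hcov : T.image S ⊆ Finset.univ.biUnion fun h : H => (T.image S).filter fun A =>
        Pool.Agent.Helper99.HG.Bad (X.cd hm hfin (g h)) A := by
      intro A hA'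
      obtain ⟨c, hc, rfl⟩ := Finset.mem_image.1 hA'
      obtain ⟨hc0, _, hcs⟩ := hTc c hc
      obtain ⟨h, hh⟩ := hg c hc0 hcs (S c) (hS c hc0)
      exact Finset.mem_biUnion.2 ⟨h, Finset.mem_univ _, Finset.mem_filter.2 ⟨hA', hh⟩⟩
    have h1 := (Finset.card_le_card hcov).trans Finset.card_biUnion_le
    have h2 : ∀ h : H, (((T.image S).filter fun A => Pool.Agent.Helper99.HG.Bad (X.cd hm hfin (g h)) A).card : ℝ) ≤ δ * Y := by
      intro h
      refine hY h _ ?_
      intro A hA'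
      obtain ⟨h3, h4⟩ := Finset.mem_filter.1 hA'
      obtain ⟨c, hc, rfl⟩ := Finset.mem_image.1 h3
      exact ⟨hNm c hc, h4⟩
    calc ((T.image S).card : ℝ) ≤ ∑ h : H, (((T.image S).filter fun A => Pool.Agent.Helper99.HG.Bad (X.cd hm hfin (g h)) A).card : ℝ) := by
          exact_mod_cast h1
      _ ≤ ∑ _h : H, δ * (Y : ℝ) := Finset.sum_le_sum fun h _ => h2 h
      _ = _ := by
          rw [Finset.sum_const, Finset.card_univ, nsmul_eq_mul]
  have hY0 : (0 : ℝ) ≤ Y := Nat.cast_nonneg Y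
  calc (T.card : ℝ) ≤ F.card * (T.image S).card := by exact_mod_cast hfib
    _ ≤ F.card * (Fintype.card H * (δ * Y)) := mul_le_mul_of_nonneg_left himg (Nat.cast_nonneg _)
    _ ≤ (F.card + 1) * ((Fintype.card H + 1) * (δ * Y)) := by
        have h1 : 0 ≤ δ * Y := by positivity
        have h2 : (0 : ℝ) ≤ F.card := Nat.cast_nonneg _
        have h3 : (0 : ℝ) ≤ Fintype.card H := Nat.cast_nonneg _
        nlinarith [mul_nonneg h3 h1, mul_nonneg h2 h1]
    _ = ε * Y := by
        rw [hδ]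
        field_simp

end Pool.Agent.HG
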