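import Pool.Agent.Helper99.HG.Main
import Pool.Agent.Helper99.HG.HT

/-!
# Project HG (MP_e66f84_ag), the counting theorem: the thresholds and the sum of the weights
-/

set_option autoImplicit false

namespace Pool.Agent.Helper99.HG

open Filter Topology

variable {k : ℕ} {G : Type}

/-- the thresholds -/
noncomputable def zz (N X κ : ℕ) : ℕ := ⌊Real.exp (Real.log X ^ (((min κ N : ℕ) : ℝ) / N))⌋₊

theorem log_ge_one {X : ℕ} (hX : 3 ≤ X) : 1 ≤ Real.log X := by
  have e : Real.exp 1 ≤ X := by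
    have := Real.exp_one_lt_d9
    have h3' : (3 : ℝ) ≤ X := by exact_mod_cast hX
    linarith
  calc (1 : ℝ) = Real.log (Real.exp 1) := (Real.log_exp 1).symm
    _ ≤ Real.log X := Real.log_le_log (Real.exp_pos 1) e

theorem zz_mono {N X : ℕ} (hX : 3 ≤ X) : Monotone (zz N X) := by
  intro a b hab
  unfold zz
  refine Nat.floor_mono (Real.exp_le_exp.mpr (Real.rpow_le_rpow_of_exponent_le (log_ge_one hX) ?_))
  refine div_le_div_of_nonneg_right ?_ (Nat.cast_nonneg N)
  exact_mod_cast min_le_min_right N hab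

theorem zz_top {N X : ℕ} (hN : 0 < N) (hX : 3 ≤ X) : zz N X N = X := by
  unfold zz
  have hN' : (N : ℝ) ≠ 0 := by exact_mod_cast hN.ne'
  rw [min_self, div_self hN', Real.rpow_one, Real.exp_log (by exact_mod_cast (by omega : 0 < X)), Nat.floor_natCast]

theorem zz_zero {N X : ℕ} : zz N X 0 = 2 := by
  unfold zz
  have e : (((min 0 N : ℕ) : ℝ) / N) = 0 := by simp
  rw [e, Real.rpow_zero]
  rw [Nat.floor_eq_iff (Real.exp_pos 1).le]
  have := Real.exp_one_lt_d9
  have := Real.exp_one_gt_d9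
  constructor
  · push_cast
    linarith
  · push_cast
    linarith

theorem zz_two {N X κ : ℕ} (hX : 3 ≤ X) : 2 ≤ zz N X κ := by
  rw [← zz_zero (N := N) (X := X)]
  exact zz_mono hX (Nat.zero_le κ)

theorem log_zz_le {N X κ : ℕ} (hX : 3 ≤ X) (hκ : κ ≤ N) : Real.log (zz N X κ) ≤ Real.log X ^ ((κ : ℝ) / N) := by
  have h2 := zz_two (N := N) (κ := κ) hX
  unfold zz at h2 ⊢
  rw [min_eq_left hκ] at h2 ⊢
  have h3 := Nat.floor_le (Real.exp_pos (Real.log X ^ ((κ : ℝ) / N))).le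
  calc Real.log (⌊Real.exp (Real.log X ^ ((κ : ℝ) / N))⌋₊ : ℝ) ≤ Real.log (Real.exp (Real.log X ^ ((κ : ℝ) / N))) :=
        Real.log_le_log (by exact_mod_cast (by omega : 0 < ⌊Real.exp (Real.log X ^ ((κ : ℝ) / N))⌋₊)) h3
    _ = _ := Real.log_exp _

theorem le_log_zz {N X κ : ℕ} (hX : 3 ≤ X) (hκ : κ ≤ N) : 1 / 4 * Real.log X ^ ((κ : ℝ) / N) ≤ Real.log (zz N X κ) := by
  have h1 := log_ge_one hX
  have h2 := zz_two (N := N) (κ := κ) hX
  set y : ℝ := Real.log X ^ ((κ : ℝ) / N) with hy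
  have hy1 : 1 ≤ y := Real.one_le_rpow h1 (by positivity)
  have e : zz N X κ = ⌊Real.exp y⌋₊ := by
    unfold zz
    rw [min_eq_left hκ]
  have h3 : Real.exp y / 2 ≤ zz N X κ := by
    have h4 := Nat.lt_floor_add_one (Real.exp y)
    rw [← e] at h4
    have h5 : (2 : ℝ) ≤ zz N X κ := by exact_mod_cast h2
    linarith
  have h4 := Real.log_le_log (by positivity) h3
  rw [Real.log_div (Real.exp_pos y).ne' (by norm_num), Real.log_exp] at h4
  have h5 := Real.log_two_lt_d9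
  linarith

theorem ll_le {N X κ : ℕ} (hX : 3 ≤ X) (hκ : κ ≤ N) : Real.log (Real.log (zz N X κ)) ≤ (κ : ℝ) / N * Real.log (Real.log X) := by
  have h1 := log_ge_one hX
  have h2 := zz_two (N := N) (κ := κ) hX
  have h3 : 0 < Real.log (zz N X κ) := Real.log_pos (by exact_mod_cast (by omega : 1 < zz N X κ))
  have h4 := Real.log_le_log h3 (log_zz_le hX hκ)
  rwa [Real.log_rpow (by linarith)] at h4

theorem le_ll {N X κ : ℕ} (hX : 3 ≤ X) (hκ : κ ≤ N) : (κ : ℝ) / N * Real.log (Real.log X) - Real.log 4 ≤ Real.log (Real.log (zz N X κ)) := by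
  have h1 := log_ge_one hX
  have h2 : 0 < Real.log X ^ ((κ : ℝ) / N) := by positivity
  have h4 := Real.log_le_log (by positivity) (le_log_zz (N := N) hX hκ)
  rw [Real.log_mul (by norm_num) h2.ne', Real.log_rpow (by linarith), one_div, Real.log_inv] at h4
  linarith

theorem ll_diff {N X κ : ℕ} (hN : 0 < N) (hX : 3 ≤ X) (hκ : κ < N) :
    Real.log (Real.log (zz N X (κ + 1))) - Real.log (Real.log (zz N X κ)) ≤ Real.log (Real.log X) / N + Real.log 4 := by
  have h1 := ll_le (N := N) (κ := κ + 1) hX hκ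
  have h2 := le_ll (N := N) (κ := κ) hX hκ.le
  have hN' : (N : ℝ) ≠ 0 := by exact_mod_cast hN.ne'
  have e : ((κ + 1 : ℕ) : ℝ) / N * Real.log (Real.log X) - (κ : ℝ) / N * Real.log (Real.log X) = Real.log (Real.log X) / N := by
    push_cast
    field_simp
    ring
  linarith

theorem ll_diff' {N X κ : ℕ} (hN : 0 < N) (hX : 3 ≤ X) (hκ : κ < N) :
    Real.log (Real.log X) / N - Real.log 4 ≤ Real.log (Real.log (zz N X (κ + 1))) - Real.log (Real.log (zz N X κ)) := by
  have h1 := le_ll (N := N) (κ := κ + 1) hX hκ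
  have h2 := ll_le (N := N) (κ := κ) hX hκ.le
  have hN' : (N : ℝ) ≠ 0 := by exact_mod_cast hN.ne'
  have e : ((κ + 1 : ℕ) : ℝ) / N * Real.log (Real.log X) - (κ : ℝ) / N * Real.log (Real.log X) = Real.log (Real.log X) / N := by
    push_cast
    field_simp
    ring
  linarith

/-- the irregular scales -/
theorem irr_card (K : Fin k → ℕ) (N : ℕ) : ((Finset.range N).filter fun κ => Js K κ ≠ Js K (κ + 2)).card ≤ 2 * k := by
  classical
  have hsub : ((Finset.range N).filter fun κ => Js K κ ≠ Js K (κ + 2)) ⊆ Finset.univ.biUnion fun j => {K j - 1, K j - 2} := by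
    intro κ hκ
    have h := (Finset.mem_filter.mp hκ).2
    have h2 : ∃ j, ¬ (κ < K j ↔ κ + 2 < K j) := by
      by_contra hne
      push Not at hne
      apply h
      unfold Js
      exact Finset.filter_congr fun j _ => hne j
    obtain ⟨j, hj⟩ := h2
    refine Finset.mem_biUnion.mpr ⟨j, Finset.mem_univ _, ?_⟩
    rw [Finset.mem_insert, Finset.mem_singleton]
    by_contra h3
    apply hj
    constructor <;> intro h4 <;> omega
  calc _ ≤ (Finset.univ.biUnion fun j : Fin k => ({K j - 1, K j - 2} : Finset ℕ)).card := Finset.card_le_card hsub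
    _ ≤ ∑ j : Fin k, ({K j - 1, K j - 2} : Finset ℕ).card := Finset.card_biUnion_le
    _ ≤ ∑ _j : Fin k, 2 := Finset.sum_le_sum fun j _ => Finset.card_le_two
    _ = 2 * k := by simp [mul_comm]

theorem Wt_le {D : CD k G} {K₀ : ℕ} (hV : ∀ p, (D.V p).card ≤ K₀) (z : ℕ → ℕ) (N : ℕ) (K : Fin k → ℕ) (p : D.P) : Wt D z N K p ≤ K₀ := by
  unfold Wt
  calc ∑ o ∈ VV D z N K p, (1 / 2 : ℝ) ^ (∑ j ∈ Js K (sc z N (D.nm p) + 2), (D.I p o j).card) ≤ ∑ o ∈ VV D z N K p, (1 : ℝ) :=
        Finset.sum_le_sum fun o _ => pow_le_one₀ (by norm_num) (by norm_num)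
    _ = (VV D z N K p).card := by simp
    _ ≤ K₀ := by exact_mod_cast (Finset.card_filter_le _ _).trans (hV p)

/-- the bound for the sum of the local factors -/
theorem ap_sum {D : CD k G} (hS : Sys D.P D.nm) {K₀ : ℕ} (hV : ∀ p, (D.V p).card ≤ K₀) {PB : Finset (Fin k) → Prop} {δ CB CM : ℝ}
    (hδ0 : 0 ≤ δ) (hδ : δ ≤ 1) (hCB : 0 ≤ CB) (hCM : 0 ≤ CM)
    (hTB : ∀ J, PB J → ∀ y x : ℕ, 2 ≤ y → y ≤ x → ∀ S : Finset D.P, (∀ p, p ∈ S ↔ p ∉ D.Ex ∧ y < D.nm p ∧ D.nm p ≤ x) →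
      ∑ p ∈ S, WJ D J p / D.nm p ≤ (1 - δ) * (Real.log (Real.log x) - Real.log (Real.log y)) + CB)
    (hMe : ∀ y x : ℕ, 2 ≤ y → y ≤ x → ∀ S : Finset D.P, (∀ p ∈ S, y < D.nm p ∧ D.nm p ≤ x) →
      ∑ p ∈ S, (1 : ℝ) / D.nm p ≤ Real.log (Real.log x) - Real.log (Real.log y) + CM)
    {N X : ℕ} (hN : 0 < N) (hX : 3 ≤ X) (K : Fin k → ℕ) (hK : ∀ κ < N, PB (Js K κ)) :
    ∑ p ∈ pr D X, ap D (zz N X) N K p ≤ D.Ex.card + K₀ * (pr D 2).card + N * ((Real.log 4 + CB) + K₀ * (Real.log 4 + CM)) +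
      ((1 - δ) + 2 * k * K₀ / N) * Real.log (Real.log X) := by
  classical
  set z := zz N X with hz
  set ℓ := Real.log (Real.log X) with hℓ
  have hℓ0 : 0 ≤ ℓ := Real.log_nonneg (log_ge_one hX)
  have hl4 : 0 ≤ Real.log 4 := Real.log_nonneg (by norm_num)
  have hN' : (0 : ℝ) < N := by exact_mod_cast hN
  let R : ℕ → Finset D.P := fun κ => (pr D X).filter fun p => p ∉ D.Ex ∧ sc z N (D.nm p) = κ ∧ z κ < D.nm p
  have hnm : ∀ p, (1 : ℝ) ≤ D.nm p := fun p => by
    have := hS.two p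
    exact_mod_cast (by omega : 1 ≤ D.nm p)
  have hpt : ∀ p ∈ pr D X, ap D z N K p ≤ (if p ∈ D.Ex then (1 : ℝ) else 0) + (if D.nm p ≤ 2 then (K₀ : ℝ) else 0) +
      ∑ κ ∈ Finset.range N, if p ∈ R κ then Wt D z N K p / D.nm p else 0 := by
    intro p hp
    have hW0 := Wt_nonneg D z N K p
    have hWl := Wt_le hV z N K p
    have hn := hnm p
    have hs : 0 ≤ ∑ κ ∈ Finset.range N, if p ∈ R κ then Wt D z N K p / D.nm p else 0 :=
      Finset.sum_nonneg fun κ _ => by split_ifs <;> positivity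
    have hK0 : (0 : ℝ) ≤ if D.nm p ≤ 2 then (K₀ : ℝ) else 0 := by split_ifs <;> positivity
    unfold ap
    by_cases hE : p ∈ D.Ex
    · rw [if_pos hE, if_pos hE]
      have : (1 : ℝ) / D.nm p ≤ 1 := by rw [div_le_one (by linarith)]; exact hn
      linarith
    · rw [if_neg hE, if_neg hE]
      by_cases h2 : D.nm p ≤ 2
      · rw [if_pos h2]
        have : Wt D z N K p / D.nm p ≤ K₀ := by
          rw [div_le_iff₀ (by linarith)]
          nlinarith
        linarith
      · rw [if_neg h2]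
        have hlt := sc_lt z hN (D.nm p)
        have hR : p ∈ R (sc z N (D.nm p)) := by
          refine Finset.mem_filter.mpr ⟨hp, hE, rfl, ?_⟩
          by_cases h0 : sc z N (D.nm p) = 0
          · rw [h0, hz, zz_zero]
            omega
          · exact sc_pos h0
        have h3 : Wt D z N K p / D.nm p ≤ ∑ κ ∈ Finset.range N, if p ∈ R κ then Wt D z N K p / D.nm p else 0 := by
          have h4 := Finset.single_le_sum (f := fun κ => if p ∈ R κ then Wt D z N K p / (D.nm p : ℝ) else 0)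
            (fun κ _ => by
              show 0 ≤ if p ∈ R κ then Wt D z N K p / (D.nm p : ℝ) else 0
              split_ifs <;> positivity) (Finset.mem_range.mpr hlt)
          simp only [if_pos hR] at h4
          exact h4
        linarith
  refine (Finset.sum_le_sum hpt).trans ?_
  rw [Finset.sum_add_distrib, Finset.sum_add_distrib, Finset.sum_comm]
  have a1 : ∑ p ∈ pr D X, (if p ∈ D.Ex then (1 : ℝ) else 0) ≤ D.Ex.card := by
    rw [← Finset.sum_filter, Finset.sum_const, nsmul_eq_mul, mul_one]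
    have : (pr D X).filter (fun p => p ∈ D.Ex) ⊆ D.Ex := fun p hp => (Finset.mem_filter.mp hp).2
    exact_mod_cast Finset.card_le_card this
  have a2 : ∑ p ∈ pr D X, (if D.nm p ≤ 2 then (K₀ : ℝ) else 0) ≤ K₀ * (pr D 2).card := by
    rw [← Finset.sum_filter, Finset.sum_const, nsmul_eq_mul, mul_comm]
    have : (pr D X).filter (fun p => D.nm p ≤ 2) ⊆ pr D 2 := fun p hp => (mem_pr hS).mpr (Finset.mem_filter.mp hp).2
    exact mul_le_mul_of_nonneg_left (by exact_mod_cast Finset.card_le_card this) (Nat.cast_nonneg _)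
  have a3 : ∀ κ ∈ Finset.range N, ∑ p ∈ pr D X, (if p ∈ R κ then Wt D z N K p / D.nm p else 0) ≤
      (1 - δ) * (ℓ / N) + (if Js K κ ≠ Js K (κ + 2) then K₀ * (ℓ / N) else 0) + ((Real.log 4 + CB) + K₀ * (Real.log 4 + CM)) := by
    intro κ hκ
    have hκN := Finset.mem_range.mp hκ
    rw [← Finset.sum_filter]
    have e1 : (pr D X).filter (fun p => p ∈ R κ) = R κ := by
      ext p
      rw [Finset.mem_filter]
      constructor
      · exact fun h => h.2
      · exact fun h => ⟨(Finset.mem_filter.mp h).1, h⟩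
    rw [e1]
    set T := (pr D (z (κ + 1))).filter (fun p => p ∉ D.Ex ∧ z κ < D.nm p) with hT
    have hRT : R κ ⊆ T := by
      intro p hp
      obtain ⟨h1, h2, h3, h4⟩ := Finset.mem_filter.mp hp
      refine Finset.mem_filter.mpr ⟨(mem_pr hS).mpr ?_, h2, h4⟩
      rcases Nat.lt_or_ge (κ + 1) N with h5 | h5
      · exact sc_le (z := z) (N := N) (k := κ + 1) (by omega) (by omega)
      · have h6 : κ + 1 = N := by omega
        rw [h6, hz, zz_top hN hX]
        exact (mem_pr hS).mp h1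
    have hTm : ∀ p, p ∈ T ↔ p ∉ D.Ex ∧ z κ < D.nm p ∧ D.nm p ≤ z (κ + 1) := by
      intro p
      rw [hT, Finset.mem_filter, mem_pr hS]
      tauto
    have hd := ll_diff hN hX hκN
    rw [← hz, ← hℓ] at hd
    have hzκ : 2 ≤ z κ := zz_two hX
    have hzm : z κ ≤ z (κ + 1) := zz_mono hX (Nat.le_succ κ)
    have hd0 : 0 ≤ ℓ / N := by positivity
    have hK0 : (0 : ℝ) ≤ K₀ := Nat.cast_nonneg _
    by_cases hreg : Js K κ ≠ Js K (κ + 2)
    · rw [if_pos hreg]
      have h1 : ∑ p ∈ R κ, Wt D z N K p / D.nm p ≤ ∑ p ∈ R κ, K₀ * ((1 : ℝ) / D.nm p) := by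
        refine Finset.sum_le_sum fun p _ => ?_
        rw [mul_one_div]
        exact div_le_div_of_nonneg_right (Wt_le hV z N K p) (by linarith [hnm p])
      rw [← Finset.mul_sum] at h1
      have h2 := hMe (z κ) (z (κ + 1)) hzκ hzm (R κ) (fun p hp => ((hTm p).mp (hRT hp)).2)
      have h3 : K₀ * ∑ p ∈ R κ, (1 : ℝ) / D.nm p ≤ K₀ * (ℓ / N + Real.log 4 + CM) := mul_le_mul_of_nonneg_left (by linarith) hK0
      have h4 : 0 ≤ (1 - δ) * (ℓ / N) := mul_nonneg (by linarith) hd0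
      have h5 : 0 ≤ Real.log 4 + CB := by linarith
      calc ∑ p ∈ R κ, Wt D z N K p / D.nm p ≤ K₀ * (ℓ / N + Real.log 4 + CM) := h1.trans h3
        _ ≤ _ := by linarith
    · rw [if_neg hreg]
      push Not at hreg
      have h1 : ∑ p ∈ R κ, Wt D z N K p / D.nm p = ∑ p ∈ R κ, WJ D (Js K κ) p / D.nm p := by
        refine Finset.sum_congr rfl fun p hp => ?_
        congr 1
        have h2 := (Finset.mem_filter.mp hp).2.2.1
        unfold Wt WJ VV
        rw [h2, ← hreg]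
      have hWJ0 : ∀ p, 0 ≤ WJ D (Js K κ) p := fun p => Finset.sum_nonneg fun o _ => by positivity
      have h2 : ∑ p ∈ R κ, WJ D (Js K κ) p / D.nm p ≤ ∑ p ∈ T, WJ D (Js K κ) p / D.nm p :=
        Finset.sum_le_sum_of_subset_of_nonneg hRT fun p _ _ => div_nonneg (hWJ0 p) (by linarith [hnm p])
      have h3 := hTB _ (hK κ hκN) (z κ) (z (κ + 1)) hzκ hzm T hTm
      have h4 : (1 - δ) * (Real.log (Real.log (z (κ + 1))) - Real.log (Real.log (z κ))) ≤ (1 - δ) * (ℓ / N + Real.log 4) :=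
        mul_le_mul_of_nonneg_left hd (by linarith)
      have h5 : (1 - δ) * Real.log 4 ≤ Real.log 4 := by nlinarith
      have h6 : 0 ≤ K₀ * (Real.log 4 + CM) := by positivity
      rw [h1]
      linarith
  refine (add_le_add (add_le_add a1 a2) (Finset.sum_le_sum a3)).trans ?_
  rw [Finset.sum_add_distrib, Finset.sum_add_distrib, Finset.sum_const, Finset.sum_const, Finset.card_range, nsmul_eq_mul, nsmul_eq_mul,
    ← Finset.sum_filter, Finset.sum_const, nsmul_eq_mul]
  have hirr : (((Finset.range N).filter fun κ => Js K κ ≠ Js K (κ + 2)).card : ℝ) ≤ 2 * k := by exact_mod_cast irr_card K N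
  have h7 : (((Finset.range N).filter fun κ => Js K κ ≠ Js K (κ + 2)).card : ℝ) * (K₀ * (ℓ / N)) ≤ 2 * k * (K₀ * (ℓ / N)) :=
    mul_le_mul_of_nonneg_right hirr (by positivity)
  have h8 : (N : ℝ) * ((1 - δ) * (ℓ / N)) = (1 - δ) * ℓ := by field_simp
  have h9 : ((1 - δ) + 2 * k * K₀ / N) * ℓ = (1 - δ) * ℓ + 2 * k * (K₀ * (ℓ / N)) := by ring
  rw [h8, h9]
  linarith

end Pool.Agent.Helper99.HG
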