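import Pool.Agent.Helper69.HG.Stm

/-!
# Hall gaps, block FIN: the final count
-/

set_option autoImplicit false

open Finset MeasureTheory Filter Topology Set

namespace Pool.Agent.Helper99.HGF

open Pool.Agent.Helper69.HG
open Pool.Agent.Helper49.HG (LongSet)

theorem ze_cont99 : Continuous ze := by
  unfold ze
  rw [continuous_iff_continuousAt]
  intro t
  have h1 : (1 / 2 + Complex.I * (t : ℂ)) ≠ 1 := by
    intro h
    have h2 := congrArg Complex.re h
    simp at h2
  have h2 : ContinuousAt riemannZeta (1 / 2 + Complex.I * (t : ℂ)) := (differentiableAt_riemannZeta h1).continuousAt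
  have h3 : ContinuousAt (fun t : ℝ => (1 / 2 + Complex.I * (t : ℂ))) t := by fun_prop
  exact ContinuousAt.comp (f := fun t : ℝ => (1 / 2 + Complex.I * (t : ℂ))) h2 h3

theorem Zl_closed99 : IsClosed Zl := isClosed_singleton.preimage ze_cont99

/-- the left ends of the long gaps -/
def AA (T η : ℝ) : Set ℝ := {a | a ∈ Zl ∧ a ∈ Set.Icc T ((1 + η) * T) ∧ ∀ u ∈ Set.Ioo a (a + DD T), u ∉ Zl}

theorem AA_finite99 {T η : ℝ} (hD : 0 < DD T) : (AA T η).Finite := by
  have h1 : Set.InjOn (fun a : ℝ => ⌊(a - T) / DD T⌋) (AA T η) := by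
    have key : ∀ a ∈ AA T η, ∀ b ∈ AA T η, a < b → ⌊(a - T) / DD T⌋ < ⌊(b - T) / DD T⌋ := by
      intro a ha b hb hab
      have h2 : a + DD T ≤ b := by
        by_contra hcon
        push Not at hcon
        exact ha.2.2 b ⟨hab, hcon⟩ hb.1
      have h3 : (a - T) / DD T + 1 ≤ (b - T) / DD T := by
        rw [div_add_one hD.ne', div_le_div_iff_of_pos_right hD]
        linarith
      have h4 : ⌊(a - T) / DD T⌋ + 1 ≤ ⌊(b - T) / DD T⌋ := by
        rw [Int.le_floor]
        push_cast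
        have := Int.floor_le ((a - T) / DD T)
        linarith
      omega
    intro a ha b hb hab
    rcases lt_trichotomy a b with h | h | h
    · exact absurd hab (key a ha b hb h).ne
    · exact h
    · exact absurd hab (key b hb a ha h).ne'
  refine Set.Finite.of_injOn (t := Set.Icc (0 : ℤ) ⌊(η * T) / DD T⌋) ?_ h1 (Set.finite_Icc _ _)
  intro a ha
  have h2 := ha.2.1
  refine ⟨?_, ?_⟩
  · rw [Int.le_floor]
    push_cast
    have : 0 ≤ a - T := by linarith [h2.1]
    positivity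
  · apply Int.floor_le_floor
    rw [div_le_div_iff_of_pos_right hD]
    linarith [h2.2]

theorem fin_of (hFA : FA) (hUI : UI) (hNG : NG) (hEX : EX) : HallGaps := by
  intro η₀ hη₀
  obtain ⟨η, hη⟩ : ∃ η : ℝ, η = min η₀ 1 := ⟨_, rfl⟩
  have hη0 : 0 < η := by
    rw [hη]
    exact lt_min hη₀ one_pos
  have hη1 : η ≤ 1 := by
    rw [hη]
    exact min_le_right _ _
  have hη2 : η ≤ η₀ := by
    rw [hη]
    exact min_le_left _ _
  obtain ⟨c₁, hc₁, b₁, hb₁⟩ := hFA η hη0 hη1
  obtain ⟨b₂, hb₂⟩ := hUI (c₁ / 2) (by positivity)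
  obtain ⟨ε₁, hε₁, hf⟩ := hb₁ (max b₁ b₂) (le_max_left _ _)
  obtain ⟨ε₂, hε₂, hu⟩ := hb₂ (max b₁ b₂) (le_max_right _ _)
  obtain ⟨ε, hε⟩ : ∃ ε : ℝ, ε = min ε₁ ε₂ := ⟨_, rfl⟩
  have hε0 : 0 < ε := by
    rw [hε]
    exact lt_min hε₁ hε₂
  obtain ⟨T₁, hT₁⟩ := hf ε hε0 (by rw [hε]; exact min_le_left _ _)
  obtain ⟨δ, T₂, hδ, hT₂⟩ := hu ε hε0 (by rw [hε]; exact min_le_right _ _)
  obtain ⟨K, T₃, hK, hT₃⟩ := hNG (δ / 8) (by positivity)
  refine ⟨δ / (2 * K), max (max T₁ T₂) (max (max T₃ (Real.exp 1)) (8 * K / δ)), by positivity, fun T hT => ?_⟩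
  have h1 : T₁ ≤ T := ((le_max_left _ _).trans (le_max_left _ _)).trans hT
  have h2 : T₂ ≤ T := ((le_max_right _ _).trans (le_max_left _ _)).trans hT
  have h3 : T₃ ≤ T := (((le_max_left _ _).trans (le_max_left _ _)).trans (le_max_right _ _)).trans hT
  have h4 : Real.exp 1 ≤ T := (((le_max_right _ _).trans (le_max_left _ _)).trans (le_max_right _ _)).trans hT
  have h5 : 8 * K / δ ≤ T := ((le_max_right _ _).trans (le_max_right _ _)).trans hT
  have he := Real.add_one_le_exp 1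
  have hT1 : 1 < T := by linarith
  have hT0 : 0 < T := by linarith
  have hL : 1 ≤ Real.log T := by
    rw [Real.le_log_iff_exp_le hT0]
    exact h4
  have hL0 : 0 < Real.log T := by linarith
  have hD : 0 < DD T := by
    unfold DD
    have := Real.pi_pos
    positivity
  obtain ⟨a, ha⟩ := hEX T ε (max b₁ b₂) hT1 hε0
  obtain ⟨G, hG⟩ : ∃ G : Set ℝ, G = LongSet Zl (DD T) ∩ Set.Icc T ((1 + η) * T) := ⟨_, rfl⟩
  have hGm : MeasurableSet G := by
    rw [hG]
    exact (Pool.Agent.Helper49.HG.measurableSet_LongSet Zl_closed99 (DD T)).inter measurableSet_Icc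
  have hG2 : G ⊆ Set.Icc T (2 * T) := by
    rw [hG]
    intro t ht
    refine ⟨ht.2.1, ht.2.2.trans ?_⟩
    exact mul_le_mul_of_nonneg_right (by linarith) hT0.le
  have hint := hT₁ T h1 a ha
  rw [← hG] at hint
  have hvol : ENNReal.ofReal (δ * T) < volume G := by
    by_contra hcon
    push Not at hcon
    have h6 := hT₂ T h2 a ha G hGm hG2 hcon
    have h7 : c₁ / 2 * T / ε < c₁ * T / ε := by
      rw [div_lt_div_iff_of_pos_right hε0]
      have : 0 < c₁ * T := by positivity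
      linarith
    linarith
  -- the exceptional sets
  obtain ⟨N, hN⟩ : ∃ N : Set ℝ, N = {t : ℝ | t ∈ Set.Icc T (2 * T) ∧ ∀ u ∈ Set.Ioo t (t + K / Real.log T), ze u ≠ 0} := ⟨_, rfl⟩
  have hNv := hT₃ T h3
  rw [← hN] at hNv
  obtain ⟨k, hk⟩ : ∃ k : ℝ, k = K / Real.log T := ⟨_, rfl⟩
  rw [← hk] at hN
  have hk0 : 0 < k := by
    rw [hk]
    positivity
  have hfin := AA_finite99 (η := η) hD
  have hcov : G ⊆ (N ∪ (fun t => t + -k) ⁻¹' N ∪ Set.Icc T (T + k)) ∪ ⋃ a ∈ hfin.toFinset, Set.Ioo a (a + k) := by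
    intro t ht
    by_cases hc1 : t ∈ N
    · exact Or.inl (Or.inl (Or.inl hc1))
    by_cases hc2 : t + -k ∈ N
    · exact Or.inl (Or.inl (Or.inr hc2))
    have htI := hG2 ht
    by_cases hc3 : t ≤ T + k
    · exact Or.inl (Or.inr ⟨htI.1, hc3⟩)
    right
    push Not at hc3
    rw [hG] at ht
    have htL := ht.1
    -- a zero to the left
    have hz1 : ∃ u ∈ Set.Ioo (t + -k) (t + -k + k), ze u = 0 := by
      by_contra hcon
      push Not at hcon
      apply hc2
      rw [hN]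
      exact ⟨⟨by linarith, by linarith [htI.2]⟩, hcon⟩
    obtain ⟨u₁, hu₁, hu₁z⟩ := hz1
    have hA : IsClosed (Zl ∩ Set.Iic t) := Zl_closed99.inter isClosed_Iic
    have hA2 : BddAbove (Zl ∩ Set.Iic t) := ⟨t, fun y hy => hy.2⟩
    have hu₁t : u₁ ≤ t := by linarith [hu₁.2]
    have hA3 := hA.csSup_mem ⟨u₁, hu₁z, hu₁t⟩ hA2
    have hA4 : u₁ ≤ sSup (Zl ∩ Set.Iic t) := le_csSup hA2 ⟨hu₁z, hu₁t⟩
    obtain ⟨x, hx⟩ : ∃ x : ℝ, x = sSup (Zl ∩ Set.Iic t) := ⟨_, rfl⟩
    rw [← hx] at hA3 hA4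
    have hxt : x < t := by
      rcases lt_or_eq_of_le (show x ≤ t from hA3.2) with h | h
      · exact h
      · exfalso
        apply htL.1
        rw [← h]
        exact hA3.1
    rw [Set.mem_iUnion₂]
    refine ⟨x, ?_, hxt, by linarith [hu₁.1]⟩
    rw [Set.Finite.mem_toFinset]
    refine ⟨hA3.1, ⟨by linarith [hu₁.1], hxt.le.trans ht.2.2⟩, ?_⟩
    intro u hu huz
    rcases le_or_gt u t with h | h
    · have : u ≤ x := by
        rw [hx]
        exact le_csSup hA2 ⟨huz, h⟩
      linarith [hu.1]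
    · have := htL.2 x hA3.1 u huz hxt h
      linarith [hu.2]
  -- the count
  have hv1 : volume ((fun t => t + -k) ⁻¹' N) ≤ ENNReal.ofReal (δ / 8 * T) := by
    rw [measure_preimage_add_right]
    exact hNv
  have hv2 : volume (Set.Icc T (T + k)) = ENNReal.ofReal k := by
    rw [Real.volume_Icc]
    congr 1
    ring
  have hv3 : volume (⋃ a ∈ hfin.toFinset, Set.Ioo a (a + k)) ≤ ENNReal.ofReal (hfin.toFinset.card * k) := by
    refine (measure_biUnion_finset_le _ _).trans ?_
    have : ∀ a ∈ hfin.toFinset, volume (Set.Ioo a (a + k)) = ENNReal.ofReal k := by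
      intro a _
      rw [Real.volume_Ioo]
      congr 1
      ring
    rw [Finset.sum_congr rfl this, Finset.sum_const, nsmul_eq_mul, ENNReal.ofReal_mul (by positivity), ENNReal.ofReal_natCast]
  have hv4 : volume G ≤ ENNReal.ofReal (δ / 8 * T + δ / 8 * T + k + hfin.toFinset.card * k) := by
    rw [ENNReal.ofReal_add (by positivity) (by positivity), ENNReal.ofReal_add (by positivity) (by positivity),
      ENNReal.ofReal_add (by positivity) (by positivity)]
    refine (measure_mono hcov).trans ?_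
    refine (measure_union_le _ _).trans (add_le_add ?_ hv3)
    refine (measure_union_le _ _).trans (add_le_add ?_ hv2.le)
    exact (measure_union_le _ _).trans (add_le_add hNv hv1)
  have hv5 := lt_of_lt_of_le hvol hv4
  rw [ENNReal.ofReal_lt_ofReal_iff (by positivity)] at hv5
  have hkT : k ≤ δ / 8 * T := by
    have h6 : k ≤ K := by
      rw [hk, div_le_iff₀ hL0]
      nlinarith
    rw [div_le_iff₀ hδ] at h5
    linarith
  have hcard : δ / 2 * T ≤ hfin.toFinset.card * k := by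
    linarith
  refine ⟨hfin.toFinset, ?_, ?_⟩
  · rw [hk] at hcard
    rw [← mul_div_assoc, le_div_iff₀ hL0] at hcard
    have h6 : δ / (2 * K) * (T * Real.log T) = δ / 2 * T * Real.log T / K := by
      field_simp
    rw [h6, div_le_iff₀ hK]
    exact hcard
  · intro γ hγ
    rw [Set.Finite.mem_toFinset] at hγ
    have e1 : ∀ u : ℝ, riemannZeta (1 / 2 + u * Complex.I) = ze u := by
      intro u
      unfold ze
      rw [mul_comm]
    refine ⟨⟨hγ.2.1.1, hγ.2.1.2.trans ?_⟩, ?_, ?_⟩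
    · exact mul_le_mul_of_nonneg_right (by linarith) hT0.le
    · rw [e1]
      exact hγ.1
    · intro u hu
      rw [e1]
      exact hγ.2.2 u hu

end Pool.Agent.Helper99.HGF
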