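import Pool.Agent.Helper13.HG.All
import Pool.Agent.Helper99.HG.G5R

/-!
# Project HG: the assembly, with a rate
-/

set_option autoImplicit false

namespace Pool.Agent.HG

/-- **The final theorem, with a rate.** -/
theorem finalR : StmtFinalR :=
  g5R stmtA sel Pool.Agent.Helper99.HG.countR g1 g2 g3 Pool.Agent.Helper88.HG.g4
    Pool.Agent.Helper88.HG.thue (btl Pool.Agent.Helper21.HG.mert) Pool.Agent.Helper21.HG.mert
    Pool.Agent.Helper21.HG.split Pool.Agent.Helper22.HG.der

end Pool.Agent.HG
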