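import Pool.Agent.Helper99.HG.Defs

/-!
# Project HG (MP_e66f84_ag), the counting theorem: scales, covering
-/

set_option autoImplicit false

namespace Pool.Agent.Helper99.HG

open Filter Topology

/-- the scale of `p` -/
def sc (z : ℕ → ℕ) (N p : ℕ) : ℕ := Nat.findGreatest (fun k => z k < p) (N - 1)

theorem sc_lt (z : ℕ → ℕ) {N : ℕ} (hN : 0 < N) (p : ℕ) : sc z N p < N := by
  have : sc z N p ≤ N - 1 := Nat.findGreatest_le _
  omega

theorem sc_le {z : ℕ → ℕ} {N k p : ℕ} (hk : k ≤ N - 1) (h : sc z N p < k) : p ≤ z k := by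
  have := Nat.findGreatest_is_greatest h hk
  omega

theorem sc_pos {z : ℕ → ℕ} {N p : ℕ} (h : sc z N p ≠ 0) : z (sc z N p) < p :=
  Nat.findGreatest_of_ne_zero (P := fun k => z k < p) (m := sc z N p) rfl h

variable {k : ℕ} {G : Type}

open Classical in
/-- the primes of bounded norm -/
noncomputable def pr (D : CD k G) (x : ℕ) : Finset D.P :=
  if h : {p : D.P | D.nm p ≤ x}.Finite then h.toFinset else ∅

theorem mem_pr {D : CD k G} (h : Sys D.P D.nm) {x : ℕ} {p : D.P} : p ∈ pr D x ↔ D.nm p ≤ x := by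
  unfold pr
  rw [dif_pos (h.fin x)]
  simp

/-- the components of scale larger than `κ` -/
def Js (K : Fin k → ℕ) (κ : ℕ) : Finset (Fin k) := Finset.univ.filter fun j => κ < K j

open Classical in
/-- the prescribed value for the special prime -/
noncomputable def tt [CommGroup G] (D : CD k G) (d : Finset D.P) (τ : D.P → D.O) (j : Fin k) (p : D.P) (i : D.ι) : G :=
  D.g p (τ p) i * (∏ q ∈ (pf D d).filter (fun q => q ≠ p ∧ D.cmp (τ q) = j), D.χ p i q (τ q))⁻¹

/-- the modulus for the component `j` -/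
noncomputable def mm (D : CD k G) (z : ℕ → ℕ) (N : ℕ) (K : Fin k → ℕ) (d : Finset D.P) (j : Fin k) : Finset D.P :=
  (pf D d).filter (fun p => sc z N (D.nm p) + 3 ≤ K j)

open Classical in
/-- the special primes for the component `j` -/
noncomputable def UQ [CommGroup G] (D : CD k G) (z : ℕ → ℕ) (N X : ℕ) (K : Fin k → ℕ) (d : Finset D.P) (τ : D.P → D.O)
    (j : Fin k) : Finset D.P :=
  (pr D X).filter fun Q => Q ∉ D.Ex ∧ Q ∉ mm D z N K d j ∧
    sc z N (D.nm Q) + 1 = K j ∧ ∃ o ∈ D.V Q, D.cmp o = j ∧ ∀ p ∈ mm D z N K d j, ∀ i ∈ D.I p (τ p) j,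
      D.χ p i Q o = tt D d τ j p i

open Classical in
/-- the special primes, with the empty set if there is none -/
noncomputable def UU [CommGroup G] (D : CD k G) (z : ℕ → ℕ) (N X : ℕ) (K : Fin k → ℕ) (d : Finset D.P) (τ : D.P → D.O)
    (j : Fin k) : Finset (Finset D.P) :=
  if K j = 0 then {∅} else (UQ D z N X K d τ j).image fun Q => {Q}

/-- the options with the right components -/
def VV (D : CD k G) (z : ℕ → ℕ) (N : ℕ) (K : Fin k → ℕ) (p : D.P) : Finset D.O :=
  (D.V p).filter fun o => D.cmp o ∈ Js K (sc z N (D.nm p))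

open Classical in
/-- the extension of a function on a finite set -/
noncomputable def ext {P O : Type} (o₀ : O) (s : Finset P) (f : ∀ p ∈ s, O) (p : P) : O :=
  if h : p ∈ s then f p h else o₀

open Classical in
/-- the sets which occur -/
noncomputable def DD (D : CD k G) (z : ℕ → ℕ) (N A X : ℕ) : Finset (Finset D.P) :=
  (pr D X).powerset.filter fun d =>
    ∀ κ, 1 ≤ κ → κ + 1 ≤ N - 1 → (∏ p ∈ (pf D d).filter (fun p => D.nm p ≤ z κ), D.nm p) ^ A ≤ z (κ + 1)

open Classical in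
theorem mem_pf {D : CD k G} {c : Finset D.P} {p : D.P} : p ∈ pf D c ↔ p ∈ c ∧ p ∉ D.Ex := by
  unfold pf
  exact Finset.mem_filter

theorem nm_le_Nm {D : CD k G} (h : Sys D.P D.nm) {c : Finset D.P} {p : D.P} (hp : p ∈ c) : D.nm p ≤ Nm D c := by
  unfold Nm
  refine Nat.le_of_dvd (Finset.prod_pos fun q _ => ?_) (Finset.dvd_prod_of_mem _ hp)
  have := h.two q
  omega

theorem Nm_pos {D : CD k G} (h : Sys D.P D.nm) (c : Finset D.P) : 0 < Nm D c :=
  Finset.prod_pos fun q _ => by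
    have := h.two q
    omega

open Classical in
theorem cover [CommGroup G] {D : CD k G} (hS : Sys D.P D.nm) {z : ℕ → ℕ} {N A X : ℕ} {c : Finset D.P} (hN : 0 < N)
    {PB : Finset (Fin k) → Prop} (hcX : Nm D c ≤ X) (hbad : Bad D c)
    (hfull : ∀ κ < N, ∀ J, ¬ PB J → ∃ p ∈ pf D c, sc z N (D.nm p) = κ ∧ ∀ o ∈ D.V p, D.cmp o ∉ J)
    (hsm : ∀ κ, 1 ≤ κ → κ + 1 ≤ N - 1 → (∏ p ∈ (pf D c).filter (fun p => D.nm p ≤ z κ), D.nm p) ^ A ≤ z (κ + 1)) (o₀ : D.O) :
    ∃ K : Fin k → ℕ, (∀ j, K j ≤ N) ∧ (∀ κ < N, PB (Js K κ)) ∧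
      ∃ d ∈ DD D z N A X, ∃ f ∈ Finset.pi (pf D d) (fun p => VV D z N K p),
        ∃ q ∈ Fintype.piFinset (fun j => UU D z N X K d (ext o₀ _ f) j), Nm D d * ∏ j, Nm D (q j) ≤ X ∧
          d ∪ Finset.univ.biUnion q = c := by
  obtain ⟨τ, hτ⟩ := hbad
  set P := pf D c with hP
  let K : Fin k → ℕ := fun j => (P.filter fun p => D.cmp (τ p) = j).sup fun p => sc z N (D.nm p) + 1
  have hKle : ∀ p ∈ P, sc z N (D.nm p) < K (D.cmp (τ p)) := by
    intro p hp
    exact Finset.le_sup (f := fun p => sc z N (D.nm p) + 1) (Finset.mem_filter.mpr ⟨hp, rfl⟩)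
  have hKN : ∀ j, K j ≤ N := by
    intro j
    exact Finset.sup_le fun p _ => sc_lt z hN (D.nm p)
  have hq : ∀ j, ∃ q : Finset D.P, if K j = 0 then q = ∅ else ∃ Q, q = {Q} ∧ Q ∈ P ∧ D.cmp (τ Q) = j ∧ sc z N (D.nm Q) + 1 = K j := by
    intro j
    by_cases h : K j = 0
    · exact ⟨∅, by rw [if_pos h]⟩
    · have hne : (P.filter fun p => D.cmp (τ p) = j).Nonempty := by
        rw [Finset.nonempty_iff_ne_empty]
        intro he
        exact h (by simp only [K, he, Finset.sup_empty]; rfl)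
      obtain ⟨q, hq1, hq2⟩ := Finset.exists_mem_eq_sup _ hne fun p => sc z N (D.nm p) + 1
      refine ⟨{q}, ?_⟩
      rw [if_neg h]
      exact ⟨q, rfl, (Finset.mem_filter.mp hq1).1, (Finset.mem_filter.mp hq1).2, hq2.symm⟩
  choose q hq using hq
  have hq0 : ∀ j, K j = 0 → q j = ∅ := fun j h => by
    have := hq j
    rwa [if_pos h] at this
  have hq1 : ∀ j, K j ≠ 0 → ∃ Q, q j = {Q} ∧ Q ∈ P ∧ D.cmp (τ Q) = j ∧ sc z N (D.nm Q) + 1 = K j := fun j h => by
    have := hq j
    rwa [if_neg h] at this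
  have hqm : ∀ j p, p ∈ q j → K j ≠ 0 ∧ p ∈ P ∧ D.cmp (τ p) = j ∧ sc z N (D.nm p) + 1 = K j ∧ q j = {p} := by
    intro j p hp
    have h : K j ≠ 0 := by
      intro h
      rw [hq0 j h] at hp
      simp at hp
    obtain ⟨Q, h1, h2, h3, h4⟩ := hq1 j h
    rw [h1, Finset.mem_singleton] at hp
    subst hp
    exact ⟨h, h2, h3, h4, h1⟩
  set T := Finset.univ.biUnion q with hT
  have hTP : T ⊆ P := by
    intro p hp
    obtain ⟨j, _, hj⟩ := Finset.mem_biUnion.mp hp
    exact (hqm j p hj).2.1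
  have hTc : T ⊆ c := fun p hp => (mem_pf.mp (hTP hp)).1
  have hprodq : ∏ j, Nm D (q j) = Nm D T := by
    unfold Nm
    rw [hT, Finset.prod_biUnion]
    intro i _ j _ hij
    rw [Function.onFun, Finset.disjoint_left]
    intro p h1 h2
    exact hij ((hqm i p h1).2.2.1.symm.trans (hqm j p h2).2.2.1)
  set d := c \ T with hd
  have hdc : Nm D d * ∏ j, Nm D (q j) = Nm D c := by
    rw [hprodq, hd]
    unfold Nm
    exact Finset.prod_sdiff hTc
  have hpfd : pf D d = P \ T := by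
    ext p
    rw [Finset.mem_sdiff, mem_pf, hd, Finset.mem_sdiff, hP, mem_pf]
    tauto
  have hdP : ∀ p ∈ pf D d, p ∈ P := by
    intro p hp
    rw [hpfd] at hp
    exact (Finset.mem_sdiff.mp hp).1
  set f : ∀ p ∈ pf D d, D.O := fun p _ => τ p with hf
  have hext : ∀ p ∈ pf D d, ext o₀ _ f p = τ p := by
    intro p hp
    unfold ext
    rw [dif_pos hp]
  -- the conditions
  have htt : ∀ p ∈ pf D d, ∀ j, ∀ Q, q j = {Q} → ∀ i ∈ D.I p (τ p) j, D.χ p i Q (τ Q) = tt D d (ext o₀ _ f) j p i := by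
    intro p hp j Q hj i hi
    have hpP := hdP p hp
    have h1 := (hτ p hpP).2 j i hi
    have hpT : p ∉ T := by
      rw [hpfd] at hp
      exact (Finset.mem_sdiff.mp hp).2
    have hQ : Q ∈ q j := by
      rw [hj]
      exact Finset.mem_singleton_self Q
    have hQj := hqm j Q hQ
    have hqT : Q ∈ T := Finset.mem_biUnion.mpr ⟨j, Finset.mem_univ _, hQ⟩
    have hqp : Q ≠ p := fun h => hpT (h ▸ hqT)
    have e : P.filter (fun q' => q' ≠ p ∧ D.cmp (τ q') = j) =
        insert Q ((pf D d).filter (fun q' => q' ≠ p ∧ D.cmp (ext o₀ _ f q') = j)) := by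
      ext r
      rw [Finset.mem_filter, Finset.mem_insert, Finset.mem_filter]
      constructor
      · rintro ⟨h2, h3, h4⟩
        by_cases hr : r ∈ T
        · left
          obtain ⟨j', _, hj'⟩ := Finset.mem_biUnion.mp hr
          have h5 := hqm j' r hj'
          have h6 : j' = j := h5.2.2.1.symm.trans h4
          rw [h6, hj, Finset.mem_singleton] at hj'
          exact hj'
        · right
          have hr' : r ∈ pf D d := by
            rw [hpfd]
            exact Finset.mem_sdiff.mpr ⟨h2, hr⟩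
          refine ⟨hr', h3, ?_⟩
          rw [hext r hr']
          exact h4
      · rintro (rfl | ⟨h2, h3, h4⟩)
        · exact ⟨hQj.2.1, hqp, hQj.2.2.1⟩
        · rw [hext r h2] at h4
          exact ⟨hdP r h2, h3, h4⟩
    have hnot : Q ∉ (pf D d).filter (fun q' => q' ≠ p ∧ D.cmp (ext o₀ _ f q') = j) := by
      intro h
      have h2 := (Finset.mem_filter.mp h).1
      rw [hpfd] at h2
      exact (Finset.mem_sdiff.mp h2).2 hqT
    rw [e, Finset.prod_insert hnot] at h1
    unfold tt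
    rw [hext p hp, eq_mul_inv_iff_mul_eq, ← h1]
    congr 1
    refine Finset.prod_congr rfl fun r hr => ?_
    rw [hext r (Finset.mem_filter.mp hr).1]
  refine ⟨K, hKN, ?_, d, ?_, f, ?_, q, ?_, ?_, ?_⟩
  · intro κ hκ
    by_contra h
    obtain ⟨p, hp, hps, hpo⟩ := hfull κ hκ _ h
    refine hpo (τ p) (hτ p hp).1 ?_
    refine Finset.mem_filter.mpr ⟨Finset.mem_univ _, ?_⟩
    rw [← hps]
    exact hKle p hp
  · refine Finset.mem_filter.mpr ⟨?_, ?_⟩
    · rw [Finset.mem_powerset]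
      intro p hp
      rw [mem_pr hS]
      exact (nm_le_Nm hS (Finset.mem_sdiff.mp hp).1).trans hcX
    · intro κ h1 h2
      refine (Nat.pow_le_pow_left ?_ _).trans (hsm κ h1 h2)
      refine Nat.le_of_dvd (Finset.prod_pos fun p _ => ?_) ?_
      · have := hS.two p
        omega
      refine Finset.prod_dvd_prod_of_subset _ _ _ (Finset.filter_subset_filter _ ?_)
      exact fun p hp => hdP p hp
  · rw [Finset.mem_pi]
    intro p hp
    refine Finset.mem_filter.mpr ⟨(hτ p (hdP p hp)).1, Finset.mem_filter.mpr ⟨Finset.mem_univ _, ?_⟩⟩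
    exact hKle p (hdP p hp)
  · rw [Fintype.mem_piFinset]
    intro j
    unfold UU
    by_cases h : K j = 0
    · rw [if_pos h, hq0 j h]
      exact Finset.mem_singleton_self _
    · rw [if_neg h]
      obtain ⟨Q, g0, g1, g2, g3⟩ := hq1 j h
      have hqT : Q ∈ T := Finset.mem_biUnion.mpr ⟨j, Finset.mem_univ _, by rw [g0]; exact Finset.mem_singleton_self Q⟩
      rw [g0]
      refine Finset.mem_image.mpr ⟨Q, Finset.mem_filter.mpr ⟨?_, (mem_pf.mp g1).2, ?_, g3, τ Q, (hτ _ g1).1, g2, ?_⟩, rfl⟩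
      · rw [mem_pr hS]
        exact (nm_le_Nm hS (mem_pf.mp g1).1).trans hcX
      · intro h2
        have h3 := (Finset.mem_filter.mp h2).1
        rw [hpfd] at h3
        exact (Finset.mem_sdiff.mp h3).2 hqT
      · intro p hp i hi
        have hp1 := (Finset.mem_filter.mp hp).1
        rw [hext p hp1] at hi
        exact htt p hp1 j Q g0 i hi
  · rw [hdc]
    exact hcX
  · rw [hd]
    exact Finset.sdiff_union_of_subset hTc

end Pool.Agent.Helper99.HG
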