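import Pool.Agent.Helper99.HG.Tuple

/-!
# Project HG (MP_e66f84_ag), the counting theorem: the main count
-/

set_option autoImplicit false

namespace Pool.Agent.Helper99.HG

open Filter Topology

variable {k : ℕ} {G : Type}

private theorem sum_pow {ε : ℝ} (hε : 0 < ε) (hε1 : ε ≤ 1) (n : ℕ) :
    ∑ i ∈ Finset.range n, ((i : ℝ) + 1) ^ (ε - 1) ≤ (n : ℝ) ^ ε / ε := by
  induction n with
  | zero =>
    simp only [Finset.range_zero, Finset.sum_empty]
    positivity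
  | succ n ih =>
    rw [Finset.sum_range_succ]
    have h1 : (0 : ℝ) < (n : ℝ) + 1 := by positivity
    have h2 : (n : ℝ) = ((n : ℝ) + 1) * (1 + -(1 / ((n : ℝ) + 1))) := by
      field_simp
      ring
    have h0 : (-1 : ℝ) ≤ -(1 / ((n : ℝ) + 1)) := by
      have : 1 / ((n : ℝ) + 1) ≤ 1 := by
        rw [div_le_one h1]
        have : (0 : ℝ) ≤ n := Nat.cast_nonneg n
        linarith
      linarith
    have h3 : (n : ℝ) ^ ε ≤ ((n : ℝ) + 1) ^ ε * (1 + ε * -(1 / ((n : ℝ) + 1))) := by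
      conv_lhs => rw [h2]
      rw [Real.mul_rpow h1.le (by linarith)]
      exact mul_le_mul_of_nonneg_left (rpow_one_add_le_one_add_mul_self h0 hε.le hε1) (by positivity)
    have h4 : ((n : ℝ) + 1) ^ (ε - 1) = ((n : ℝ) + 1) ^ ε / ((n : ℝ) + 1) := by
      rw [Real.rpow_sub_one h1.ne']
    have h5 : (n : ℝ) ^ ε + ε * ((n : ℝ) + 1) ^ (ε - 1) ≤ ((n : ℝ) + 1) ^ ε := by
      rw [h4]
      calc (n : ℝ) ^ ε + ε * (((n : ℝ) + 1) ^ ε / ((n : ℝ) + 1)) ≤
            ((n : ℝ) + 1) ^ ε * (1 + ε * -(1 / ((n : ℝ) + 1))) + ε * (((n : ℝ) + 1) ^ ε / ((n : ℝ) + 1)) := by linarith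
        _ = _ := by ring
    push_cast
    calc ∑ i ∈ Finset.range n, ((i : ℝ) + 1) ^ (ε - 1) + ((n : ℝ) + 1) ^ (ε - 1) ≤
          (n : ℝ) ^ ε / ε + ((n : ℝ) + 1) ^ (ε - 1) := by linarith
      _ = ((n : ℝ) ^ ε + ε * ((n : ℝ) + 1) ^ (ε - 1)) / ε := by field_simp
      _ ≤ _ := div_le_div_of_nonneg_right h5 hε.le

/-- the sum of the reciprocals from the number of elements -/
theorem recip {β : Type} (S : Finset β) (n : β → ℕ) {a ε : ℝ} (ha : 0 ≤ a) (hε : 0 < ε) (hε1 : ε ≤ 1) {X : ℕ} (hX : 3 ≤ X)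
    (h2 : ∀ x ∈ S, 2 ≤ n x ∧ n x ≤ X)
    (hc : ∀ h : ℕ, 2 ≤ h → ((S.filter (fun x => n x ≤ h)).card : ℝ) ≤ a * (h / Real.log h ^ (1 - ε))) :
    ∑ x ∈ S, (1 : ℝ) / n x ≤ 16 / ε * a * Real.log X ^ ε := by
  classical
  set L := Nat.log 2 X with hL
  have hXp : (0 : ℝ) < X := by exact_mod_cast (by omega : 0 < X)
  have hmaps : ∀ x ∈ S, Nat.log 2 (n x) ∈ Finset.range (L + 1) := by
    intro x hx
    rw [Finset.mem_range, Nat.lt_succ_iff]
    exact Nat.log_mono_right (h2 x hx).2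
  rw [← Finset.sum_fiberwise_of_maps_to hmaps]
  have hlog2 := Real.log_two_gt_d9
  have h1 : ∀ i ∈ Finset.range (L + 1), ∑ x ∈ S.filter (fun x => Nat.log 2 (n x) = i), (1 : ℝ) / n x ≤
      4 * a * ((i : ℝ) + 1) ^ (ε - 1) := by
    intro i _
    have g1 : ∑ x ∈ S.filter (fun x => Nat.log 2 (n x) = i), (1 : ℝ) / n x ≤ ∑ x ∈ S.filter (fun x => Nat.log 2 (n x) = i), (1 : ℝ) / 2 ^ i := by
      refine Finset.sum_le_sum fun x hx => ?_
      obtain ⟨k1, k2⟩ := Finset.mem_filter.mp hx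
      have k3 : 2 ^ i ≤ n x := by
        rw [← k2]
        exact Nat.pow_log_le_self 2 (by have := (h2 x k1).1; omega)
      have k4 : (2 : ℝ) ^ i ≤ n x := by exact_mod_cast k3
      exact one_div_le_one_div_of_le (by positivity) k4
    rw [Finset.sum_const, nsmul_eq_mul] at g1
    have g2 : ((S.filter (fun x => Nat.log 2 (n x) = i)).card : ℝ) ≤ a * ((2 ^ (i + 1) : ℕ) / Real.log (2 ^ (i + 1) : ℕ) ^ (1 - ε)) := by
      refine le_trans ?_ (hc (2 ^ (i + 1)) ?_)
      · have : S.filter (fun x => Nat.log 2 (n x) = i) ⊆ S.filter (fun x => n x ≤ 2 ^ (i + 1)) := by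
          intro x hx
          obtain ⟨k1, k2⟩ := Finset.mem_filter.mp hx
          refine Finset.mem_filter.mpr ⟨k1, ?_⟩
          rw [← k2]
          exact (Nat.lt_pow_succ_log_self (by norm_num) _).le
        exact_mod_cast Finset.card_le_card this
      · calc 2 = 2 ^ 1 := rfl
          _ ≤ 2 ^ (i + 1) := Nat.pow_le_pow_right (by norm_num) (by omega)
    have g3 : (1 / 2 : ℝ) * ((i : ℝ) + 1) ^ (1 - ε) ≤ Real.log (2 ^ (i + 1) : ℕ) ^ (1 - ε) := by
      rw [Nat.cast_pow, Real.log_pow, Nat.cast_ofNat, Real.mul_rpow (by positivity) (by linarith)]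
      have k1 : (1 / 2 : ℝ) ≤ Real.log 2 ^ (1 - ε) := by
        calc (1 / 2 : ℝ) = (1 / 2 : ℝ) ^ (1 : ℝ) := (Real.rpow_one _).symm
          _ ≤ (1 / 2 : ℝ) ^ (1 - ε) := Real.rpow_le_rpow_of_exponent_ge (by norm_num) (by norm_num) (by linarith)
          _ ≤ Real.log 2 ^ (1 - ε) := Real.rpow_le_rpow (by norm_num) (by linarith) (by linarith)
      push_cast
      rw [mul_comm]
      exact mul_le_mul_of_nonneg_left k1 (by positivity)
    have g4 : 0 < ((i : ℝ) + 1) ^ (1 - ε) := by positivity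
    have g5 : ((i : ℝ) + 1) ^ (ε - 1) = 1 / ((i : ℝ) + 1) ^ (1 - ε) := by
      rw [one_div, ← Real.rpow_neg (by positivity)]
      congr 1
      ring
    have g6 : ((2 ^ (i + 1) : ℕ) : ℝ) / Real.log (2 ^ (i + 1) : ℕ) ^ (1 - ε) ≤ 2 ^ (i + 1) / ((1 / 2 : ℝ) * ((i : ℝ) + 1) ^ (1 - ε)) := by
      rw [← Nat.cast_ofNat (R := ℝ) (n := 2), ← Nat.cast_pow]
      exact div_le_div_of_nonneg_left (by positivity) (by positivity) g3
    calc ∑ x ∈ S.filter (fun x => Nat.log 2 (n x) = i), (1 : ℝ) / n x ≤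
          ((S.filter (fun x => Nat.log 2 (n x) = i)).card : ℝ) * (1 / 2 ^ i) := g1
      _ ≤ a * (2 ^ (i + 1) / ((1 / 2 : ℝ) * ((i : ℝ) + 1) ^ (1 - ε))) * (1 / 2 ^ i) :=
          mul_le_mul_of_nonneg_right (g2.trans (mul_le_mul_of_nonneg_left g6 ha)) (by positivity)
      _ = 4 * a * ((i : ℝ) + 1) ^ (ε - 1) := by
          rw [g5, pow_succ]
          field_simp
          ring
  refine (Finset.sum_le_sum h1).trans ?_
  rw [← Finset.mul_sum]
  have h3 := sum_pow hε hε1 (L + 1)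
  have h4 : (L : ℝ) * Real.log 2 ≤ Real.log X := by
    have h5 : (2 : ℝ) ^ L ≤ X := by exact_mod_cast Nat.pow_log_le_self 2 (by omega : X ≠ 0)
    have h6 := Real.log_le_log (by positivity) h5
    rwa [Real.log_pow] at h6
  have h5 : 1 ≤ Real.log X := by
    have e : Real.exp 1 ≤ X := by
      have := Real.exp_one_lt_d9
      have h3' : (3 : ℝ) ≤ X := by exact_mod_cast hX
      linarith
    calc (1 : ℝ) = Real.log (Real.exp 1) := (Real.log_exp 1).symm
      _ ≤ Real.log X := Real.log_le_log (Real.exp_pos 1) e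
  have h6 : ((L + 1 : ℕ) : ℝ) ≤ 4 * Real.log X := by
    push_cast
    have : (0 : ℝ) ≤ L := Nat.cast_nonneg L
    nlinarith
  have h7 : ((L + 1 : ℕ) : ℝ) ^ ε ≤ 4 * Real.log X ^ ε := by
    calc ((L + 1 : ℕ) : ℝ) ^ ε ≤ (4 * Real.log X) ^ ε := Real.rpow_le_rpow (Nat.cast_nonneg _) h6 hε.le
      _ = (4 : ℝ) ^ ε * Real.log X ^ ε := Real.mul_rpow (by norm_num) (by linarith)
      _ ≤ 4 * Real.log X ^ ε := by
        refine mul_le_mul_of_nonneg_right ?_ (by positivity)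
        calc (4 : ℝ) ^ ε ≤ (4 : ℝ) ^ (1 : ℝ) := Real.rpow_le_rpow_of_exponent_le (by norm_num) hε1
          _ = 4 := Real.rpow_one 4
  calc 4 * a * ∑ i ∈ Finset.range (L + 1), ((i : ℝ) + 1) ^ (ε - 1) ≤ 4 * a * (4 * Real.log X ^ ε / ε) :=
        mul_le_mul_of_nonneg_left (h3.trans (div_le_div_of_nonneg_right h7 hε.le)) (by positivity)
    _ = _ := by ring

/-- the inequality of `BT` with given constants -/
def BTc (D : CD k G) (ε C : ℝ) (A : ℕ) : Prop :=
  ∀ (j : Fin k) (m : Finset D.P), (∀ p ∈ m, p ∉ D.Ex) →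
    ∀ τ : D.P → D.O, (∀ p ∈ m, τ p ∈ D.V p) → ∀ t : D.P → D.ι → G, ∀ h : ℕ, 2 ≤ h → Nm D m ^ A ≤ h →
    ∀ S : Finset D.P, (∀ Q ∈ S, Q ∉ D.Ex ∧ Q ∉ m ∧ D.nm Q ≤ h ∧
      ∃ o ∈ D.V Q, D.cmp o = j ∧ ∀ p ∈ m, ∀ i ∈ D.I p (τ p) j, D.χ p i Q o = t p i) →
    (S.card : ℝ) ≤ C * (∏ p ∈ m, (1 / 2 : ℝ) ^ (D.I p (τ p) j).card) * (h / Real.log h ^ (1 - ε))

section one

variable [CommGroup G] {D : CD k G} {ε C : ℝ} {A : ℕ} {z : ℕ → ℕ} {N X : ℕ} {K : Fin k → ℕ} {d : Finset D.P} {τ : D.P → D.O}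

open Classical in
theorem UQ_lo {j : Fin k} {Q : D.P} (hQ : Q ∈ UQ D z N X K d τ j) (hj : 2 ≤ K j) : z (K j - 1) < D.nm Q := by
  unfold UQ at hQ
  obtain ⟨_, _, _, h, _⟩ := Finset.mem_filter.mp hQ
  have h1 : sc z N (D.nm Q) = K j - 1 := by omega
  rw [← h1]
  exact sc_pos (by omega)

open Classical in
omit [CommGroup G] in
theorem Nm_mm_le (hS : Sys D.P D.nm) (hd : d ∈ DD D z N A X) {j : Fin k} (hK : K j ≤ N) (hj : 3 ≤ K j) :
    Nm D (mm D z N K d j) ^ A ≤ z (K j - 1) := by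
  unfold DD at hd
  have h := (Finset.mem_filter.mp hd).2 (K j - 2) (by omega) (by omega)
  have e : K j - 2 + 1 = K j - 1 := by omega
  rw [e] at h
  refine (Nat.pow_le_pow_left ?_ _).trans h
  unfold Nm
  refine Nat.le_of_dvd (Finset.prod_pos fun p _ => ?_) (Finset.prod_dvd_prod_of_subset _ _ _ ?_)
  · have := hS.two p
    omega
  · intro p hp
    unfold mm at hp
    obtain ⟨h1, h2⟩ := Finset.mem_filter.mp hp
    refine Finset.mem_filter.mpr ⟨h1, ?_⟩
    exact sc_le (z := z) (N := N) (k := K j - 2) (by omega) (by omega)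

omit [CommGroup G] in
theorem mm_empty {j : Fin k} (hj : K j ≤ 2) : mm D z N K d j = ∅ := by
  unfold mm
  rw [Finset.filter_eq_empty_iff]
  intro p _
  omega

theorem cardUQ (hS : Sys D.P D.nm) (hC : 0 < C) (hBT : BTc D ε C A) (hd : d ∈ DD D z N A X)
    (hτ : ∀ p ∈ pf D d, τ p ∈ D.V p) {j : Fin k} (hK : K j ≤ N) (h : ℕ) :
    (((UQ D z N X K d τ j).filter (fun Q => D.nm Q ≤ h)).card : ℝ) ≤ C * wj D z N K d τ j * (h / Real.log h ^ (1 - ε)) := by
  classical
  have hw := wj_pos D z N K d τ j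
  have hlog : 0 ≤ Real.log h := Real.log_natCast_nonneg h
  rcases Finset.eq_empty_or_nonempty ((UQ D z N X K d τ j).filter (fun Q => D.nm Q ≤ h)) with he | ⟨Q, hQ⟩
  · rw [he]
    simp only [Finset.card_empty, Nat.cast_zero]
    positivity
  obtain ⟨hQ1, hQ2⟩ := Finset.mem_filter.mp hQ
  have h2 : 2 ≤ h := (hS.two Q).trans hQ2
  refine hBT j (mm D z N K d j) ?_ τ ?_ (fun p i => tt D d τ j p i) h h2 ?_ _ ?_
  · intro p hp
    unfold mm at hp
    exact (mem_pf.mp (Finset.mem_filter.mp hp).1).2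
  · intro p hp
    unfold mm at hp
    exact hτ p (Finset.mem_filter.mp hp).1
  · rcases Nat.lt_or_ge (K j) 3 with h3 | h3
    · rw [mm_empty (by omega)]
      simp only [Nm, Finset.prod_empty, one_pow]
      omega
    · refine (Nm_mm_le hS hd hK h3).trans ?_
      exact (UQ_lo hQ1 (by omega)).le.trans hQ2
  · intro Q' hQ'
    obtain ⟨g1, g2⟩ := Finset.mem_filter.mp hQ'
    unfold UQ at g1
    obtain ⟨_, g3, g4, _, g5⟩ := Finset.mem_filter.mp g1
    exact ⟨g3, g4, g2, g5⟩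

open Classical in
/-- the number of tuples of special primes -/
theorem one (hS : Sys D.P D.nm) (hC : 0 < C) (hε : 0 < ε) (hε1 : ε ≤ 1) (hBT : BTc D ε C A) (hd : d ∈ DD D z N A X)
    (hτ : ∀ p ∈ pf D d, τ p ∈ D.V p) (hK : ∀ j, K j ≤ N) {j₀ : Fin k} (hj₀ : K j₀ = N) (hN : 2 ≤ N) (hz : 2 ≤ z (N - 1))
    (hX : 3 ≤ X) :
    (((Fintype.piFinset (fun j => UU D z N X K d τ j)).filter (fun q => Nm D d * ∏ j, Nm D (q j) ≤ X)).card : ℝ) ≤
      C * ((1 + 16 / ε * C) * Real.log X ^ ε) ^ k / Real.log (z (N - 1)) ^ (1 - ε) * X * (1 / Nm D d * ∏ j, wj D z N K d τ j) := by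
  set E : ℝ := (1 + 16 / ε * C) * Real.log X ^ ε with hE
  have hlX : 1 ≤ Real.log X := by
    have e : Real.exp 1 ≤ X := by
      have := Real.exp_one_lt_d9
      have h3' : (3 : ℝ) ≤ X := by exact_mod_cast hX
      linarith
    calc (1 : ℝ) = Real.log (Real.exp 1) := (Real.log_exp 1).symm
      _ ≤ Real.log X := Real.log_le_log (Real.exp_pos 1) e
  have hlε : 1 ≤ Real.log X ^ ε := Real.one_le_rpow hlX hε.le
  have hC' : 0 < 16 / ε * C := by positivity
  have hE1 : 1 ≤ E := by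
    rw [hE]
    nlinarith
  have hlz : 0 < Real.log (z (N - 1)) := Real.log_pos (by exact_mod_cast (by omega : 1 < z (N - 1)))
  have hlzp : 0 < Real.log (z (N - 1)) ^ (1 - ε) := by positivity
  have hw := fun j => wj_pos D z N K d τ j
  have hNm : ∀ Q : D.P, Nm D {Q} = D.nm Q := fun Q => by simp [Nm]
  have hj0 : K j₀ ≠ 0 := by omega
  -- the top prime
  have htop : ∀ h : ℕ, (((UU D z N X K d τ j₀).filter (fun x => Nm D x ≤ h)).card : ℝ) ≤
      C * wj D z N K d τ j₀ / Real.log (z (N - 1)) ^ (1 - ε) * h := by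
    intro h
    have h1 : ((UU D z N X K d τ j₀).filter (fun x => Nm D x ≤ h)).card ≤ ((UQ D z N X K d τ j₀).filter (fun Q => D.nm Q ≤ h)).card := by
      unfold UU
      rw [if_neg hj0, Finset.filter_image]
      simp only [hNm]
      exact Finset.card_image_le
    have h2 := cardUQ hS hC hBT hd hτ (hK j₀) h
    have h3 : (((UU D z N X K d τ j₀).filter (fun x => Nm D x ≤ h)).card : ℝ) ≤ (((UQ D z N X K d τ j₀).filter (fun Q => D.nm Q ≤ h)).card : ℝ) := by
      exact_mod_cast h1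
    rcases Finset.eq_empty_or_nonempty ((UQ D z N X K d τ j₀).filter (fun Q => D.nm Q ≤ h)) with he | ⟨Q, hQ⟩
    · rw [he] at h3
      simp only [Finset.card_empty, Nat.cast_zero] at h3
      have := hw j₀
      exact h3.trans (by positivity)
    · obtain ⟨g1, g2⟩ := Finset.mem_filter.mp hQ
      have g3 := UQ_lo g1 (by omega)
      rw [hj₀] at g3
      have g4 : Real.log (z (N - 1)) ^ (1 - ε) ≤ Real.log h ^ (1 - ε) := by
        refine Real.rpow_le_rpow hlz.le ?_ (by linarith)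
        exact Real.log_le_log (by exact_mod_cast (by omega : 0 < z (N - 1))) (by exact_mod_cast (by omega : z (N - 1) ≤ h))
      refine (h3.trans h2).trans ?_
      have g5 : (h : ℝ) / Real.log h ^ (1 - ε) ≤ h / Real.log (z (N - 1)) ^ (1 - ε) :=
        div_le_div_of_nonneg_left (Nat.cast_nonneg h) hlzp g4
      calc C * wj D z N K d τ j₀ * (h / Real.log h ^ (1 - ε)) ≤ C * wj D z N K d τ j₀ * (h / Real.log (z (N - 1)) ^ (1 - ε)) :=
            mul_le_mul_of_nonneg_left g5 (by have := hw j₀; positivity)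
        _ = _ := by ring
  -- the other primes
  have hoth : ∀ j, ∑ x ∈ UU D z N X K d τ j, (1 : ℝ) / Nm D x ≤ E * wj D z N K d τ j := by
    intro j
    by_cases h0 : K j = 0
    · unfold UU
      rw [if_pos h0, Finset.sum_singleton]
      have e1 : wj D z N K d τ j = 1 := by
        unfold wj
        rw [mm_empty (by omega)]
        rfl
      have e2 : Nm D ∅ = 1 := rfl
      rw [e1, e2]
      simpa using hE1
    · unfold UU
      rw [if_neg h0, Finset.sum_image (fun a _ b _ h => Finset.singleton_injective h)]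
      simp only [hNm]
      have h1 := recip (UQ D z N X K d τ j) D.nm (a := C * wj D z N K d τ j) (ε := ε) (by have := hw j; positivity) hε hε1 hX (by
        intro Q hQ
        unfold UQ at hQ
        exact ⟨hS.two Q, (mem_pr hS).mp (Finset.mem_filter.mp hQ).1⟩) (fun h _ => cardUQ hS hC hBT hd hτ (hK j) h)
      refine h1.trans ?_
      rw [hE]
      have h2 : 0 ≤ Real.log X ^ ε * wj D z N K d τ j := by have := hw j; positivity
      calc 16 / ε * (C * wj D z N K d τ j) * Real.log X ^ ε = 16 / ε * C * (Real.log X ^ ε * wj D z N K d τ j) := by ring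
        _ ≤ (1 + 16 / ε * C) * (Real.log X ^ ε * wj D z N K d τ j) := mul_le_mul_of_nonneg_right (by linarith) h2
        _ = _ := by ring
  have hUpos : ∀ j, ∀ x ∈ UU D z N X K d τ j, 0 < Nm D x := fun j x _ => Nm_pos hS x
  have h1 := tuple (fun x : Finset D.P => Nm D x) (fun j => UU D z N X K d τ j) hUpos j₀
    (B := C * wj D z N K d τ j₀ / Real.log (z (N - 1)) ^ (1 - ε)) (by have := hw j₀; positivity) htop (d := Nm D d) (X := X) (Nm_pos hS d)
  refine h1.trans ?_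
  have hX0 : (0 : ℝ) < X := by exact_mod_cast (by omega : 0 < X)
  have hd0 : (0 : ℝ) < Nm D d := by exact_mod_cast Nm_pos hS d
  have h2 : ∏ j ∈ Finset.univ.erase j₀, ∑ x ∈ UU D z N X K d τ j, (1 : ℝ) / Nm D x ≤ ∏ j ∈ Finset.univ.erase j₀, (E * wj D z N K d τ j) :=
    Finset.prod_le_prod (fun j _ => Finset.sum_nonneg fun x _ => by positivity) fun j _ => hoth j
  have h3 : 0 ≤ ∏ j ∈ Finset.univ.erase j₀, (E * wj D z N K d τ j) :=
    Finset.prod_nonneg fun j _ => by have := hw j; positivity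
  have hw0 := hw j₀
  calc C * wj D z N K d τ j₀ / Real.log (z (N - 1)) ^ (1 - ε) * (X / Nm D d) * ∏ j ∈ Finset.univ.erase j₀, ∑ x ∈ UU D z N X K d τ j, (1 : ℝ) / Nm D x
      ≤ C * wj D z N K d τ j₀ / Real.log (z (N - 1)) ^ (1 - ε) * (X / Nm D d) * ∏ j ∈ Finset.univ.erase j₀, (E * wj D z N K d τ j) :=
        mul_le_mul_of_nonneg_left h2 (by positivity)
    _ = C / Real.log (z (N - 1)) ^ (1 - ε) * (X / Nm D d) * ((wj D z N K d τ j₀) * ∏ j ∈ Finset.univ.erase j₀, (E * wj D z N K d τ j)) := by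
        ring
    _ ≤ C / Real.log (z (N - 1)) ^ (1 - ε) * (X / Nm D d) * ((E * wj D z N K d τ j₀) * ∏ j ∈ Finset.univ.erase j₀, (E * wj D z N K d τ j)) := by
        refine mul_le_mul_of_nonneg_left (mul_le_mul_of_nonneg_right ?_ h3) (by positivity)
        nlinarith
    _ = C / Real.log (z (N - 1)) ^ (1 - ε) * (X / Nm D d) * ∏ j, (E * wj D z N K d τ j) := by
        rw [Finset.mul_prod_erase Finset.univ (fun j => E * wj D z N K d τ j) (Finset.mem_univ j₀)]
    _ = _ := by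
        rw [Finset.prod_mul_distrib, Finset.prod_const, Finset.card_univ, Fintype.card_fin]
        ring

end one

open Classical in
/-- the main count -/
theorem main_count [CommGroup G] {D : CD k G} (hS : Sys D.P D.nm) {ε C : ℝ} {A : ℕ} (hC : 0 < C) (hε : 0 < ε) (hε1 : ε ≤ 1)
    (hBT : BTc D ε C A) {z : ℕ → ℕ} {N X : ℕ} (hN : 2 ≤ N) (hz : 2 ≤ z (N - 1)) (hX : 3 ≤ X) {PB : Finset (Fin k) → Prop}
    (hPB : ∀ J, PB J → J.Nonempty) (o₀ : D.O) (S : Finset (Finset D.P)) (hSc : ∀ c ∈ S, Nm D c ≤ X ∧ Bad D c ∧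
      (∀ κ < N, ∀ J, ¬ PB J → ∃ p ∈ pf D c, sc z N (D.nm p) = κ ∧ ∀ o ∈ D.V p, D.cmp o ∉ J) ∧
      (∀ κ, 1 ≤ κ → κ + 1 ≤ N - 1 → (∏ p ∈ (pf D c).filter (fun p => D.nm p ≤ z κ), D.nm p) ^ A ≤ z (κ + 1)))
    {B : ℝ} (hB : ∀ K : Fin k → ℕ, (∀ j, K j ≤ N) → (∀ κ < N, PB (Js K κ)) → ∑ p ∈ pr D X, ap D z N K p ≤ B) :
    (S.card : ℝ) ≤ (N + 1) ^ k * (C * ((1 + 16 / ε * C) * Real.log X ^ ε) ^ k / Real.log (z (N - 1)) ^ (1 - ε) * X * Real.exp B) := by
  set Ks := (Fintype.piFinset fun _ : Fin k => Finset.range (N + 1)).filter fun K => ∀ κ < N, PB (Js K κ) with hKs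
  have hKle : ∀ K ∈ Ks, ∀ j, K j ≤ N := by
    intro K hK j
    have := Finset.mem_range.mp (Fintype.mem_piFinset.mp (Finset.mem_filter.mp hK).1 j)
    omega
  have hsub : S ⊆ Ks.biUnion fun K => (DD D z N A X).biUnion fun d => (Finset.pi (pf D d) (fun p => VV D z N K p)).biUnion fun f =>
      ((Fintype.piFinset (fun j => UU D z N X K d (ext o₀ _ f) j)).filter (fun q => Nm D d * ∏ j, Nm D (q j) ≤ X)).image
        fun q => d ∪ Finset.univ.biUnion q := by
    intro c hc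
    obtain ⟨h1, h2, h3, h4⟩ := hSc c hc
    obtain ⟨K, hK, hKB, d, hd, f, hf, q, hq, hqX, he⟩ := cover hS (by omega) h1 h2 h3 h4 o₀
    simp only [Finset.mem_biUnion, Finset.mem_image]
    refine ⟨K, Finset.mem_filter.mpr ⟨Fintype.mem_piFinset.mpr fun j => Finset.mem_range.mpr (Nat.lt_succ_of_le (hK j)), hKB⟩,
      d, hd, f, hf, q, Finset.mem_filter.mpr ⟨hq, hqX⟩, he⟩
  have hcard : (S.card : ℝ) ≤ ∑ K ∈ Ks, ∑ d ∈ DD D z N A X, ∑ f ∈ Finset.pi (pf D d) (fun p => VV D z N K p),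
      (((Fintype.piFinset (fun j => UU D z N X K d (ext o₀ _ f) j)).filter (fun q => Nm D d * ∏ j, Nm D (q j) ≤ X)).card : ℝ) := by
    have h1 : S.card ≤ ∑ K ∈ Ks, ∑ d ∈ DD D z N A X, ∑ f ∈ Finset.pi (pf D d) (fun p => VV D z N K p),
        ((Fintype.piFinset (fun j => UU D z N X K d (ext o₀ _ f) j)).filter (fun q => Nm D d * ∏ j, Nm D (q j) ≤ X)).card := by
      refine (Finset.card_le_card hsub).trans (Finset.card_biUnion_le.trans ?_)
      refine Finset.sum_le_sum fun K _ => Finset.card_biUnion_le.trans ?_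
      refine Finset.sum_le_sum fun d _ => Finset.card_biUnion_le.trans ?_
      exact Finset.sum_le_sum fun f _ => Finset.card_image_le
    exact_mod_cast h1
  refine hcard.trans ?_
  set Y : ℝ := C * ((1 + 16 / ε * C) * Real.log X ^ ε) ^ k / Real.log (z (N - 1)) ^ (1 - ε) * X with hY
  have hlX : 0 ≤ Real.log X := Real.log_natCast_nonneg X
  have hlz : 0 ≤ Real.log (z (N - 1)) := Real.log_natCast_nonneg _
  have hY0 : 0 ≤ Y := by
    rw [hY]
    positivity
  have hK1 : ∀ K ∈ Ks, ∑ d ∈ DD D z N A X, ∑ f ∈ Finset.pi (pf D d) (fun p => VV D z N K p),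
      (((Fintype.piFinset (fun j => UU D z N X K d (ext o₀ _ f) j)).filter (fun q => Nm D d * ∏ j, Nm D (q j) ≤ X)).card : ℝ) ≤
      Y * Real.exp B := by
    intro K hK
    obtain ⟨hK1, hK2⟩ := Finset.mem_filter.mp hK
    obtain ⟨j₀, hj₀⟩ := hPB _ (hK2 (N - 1) (by omega))
    have hj1 : K j₀ = N := by
      have h1 := (Finset.mem_filter.mp hj₀).2
      have h2 := hKle K hK j₀
      omega
    have h1 : ∀ d ∈ DD D z N A X, ∑ f ∈ Finset.pi (pf D d) (fun p => VV D z N K p),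
        (((Fintype.piFinset (fun j => UU D z N X K d (ext o₀ _ f) j)).filter (fun q => Nm D d * ∏ j, Nm D (q j) ≤ X)).card : ℝ) ≤
        Y * (1 / Nm D d * ∏ p ∈ pf D d, Wt D z N K p) := by
      intro d hd
      have h2 : ∀ f ∈ Finset.pi (pf D d) (fun p => VV D z N K p),
          (((Fintype.piFinset (fun j => UU D z N X K d (ext o₀ _ f) j)).filter (fun q => Nm D d * ∏ j, Nm D (q j) ≤ X)).card : ℝ) ≤
          Y * (1 / Nm D d * ∏ j, wj D z N K d (ext o₀ _ f) j) := by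
        intro f hf
        refine one hS hC hε hε1 hBT hd ?_ (hKle K hK) hj1 hN hz hX
        intro p hp
        unfold ext
        rw [dif_pos hp]
        exact (Finset.mem_filter.mp (Finset.mem_pi.mp hf p hp)).1
      refine (Finset.sum_le_sum h2).trans (le_of_eq ?_)
      rw [← Finset.mul_sum, ← Finset.mul_sum, sum_pi]
    refine (Finset.sum_le_sum h1).trans ?_
    rw [← Finset.mul_sum]
    refine mul_le_mul_of_nonneg_left ((euler D z N A X K).trans ?_) hY0
    exact Real.exp_le_exp.mpr (hB K (hKle K hK) hK2)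
  refine (Finset.sum_le_sum hK1).trans ?_
  rw [Finset.sum_const, nsmul_eq_mul]
  have h5 : Ks.card ≤ (N + 1) ^ k := by
    refine (Finset.card_filter_le _ _).trans ?_
    rw [Fintype.card_piFinset]
    simp
  have h6 : (Ks.card : ℝ) ≤ (N + 1) ^ k := by exact_mod_cast h5
  exact mul_le_mul_of_nonneg_right h6 (by positivity)

end Pool.Agent.Helper99.HG
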