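import Pool.Agent.Helper99.HG.Cover

/-!
# Project HG (MP_e66f84_ag), the counting theorem: tuples of special primes, Euler product
-/

set_option autoImplicit false

namespace Pool.Agent.Helper99.HG

open Filter Topology

variable {k : ℕ} {G : Type}

open Classical in
theorem tuple {β : Type} (w : β → ℕ) (U : Fin k → Finset β) (hw : ∀ j, ∀ x ∈ U j, 0 < w x) (j₀ : Fin k) {B : ℝ} (hB0 : 0 ≤ B)
    (hB : ∀ h : ℕ, (((U j₀).filter (fun x => w x ≤ h)).card : ℝ) ≤ B * h) {d X : ℕ} (hd : 0 < d) :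
    (((Fintype.piFinset U).filter (fun q => d * ∏ j, w (q j) ≤ X)).card : ℝ) ≤
      B * (X / d) * ∏ j ∈ Finset.univ.erase j₀, ∑ x ∈ U j, (1 : ℝ) / w x := by
  set R := (Fintype.piFinset U).filter (fun q => d * ∏ j, w (q j) ≤ X) with hR
  have hnn : 0 ≤ ∏ j ∈ Finset.univ.erase j₀, ∑ x ∈ U j, (1 : ℝ) / w x :=
    Finset.prod_nonneg fun j _ => Finset.sum_nonneg fun x _ => by positivity
  rcases Finset.eq_empty_or_nonempty (U j₀) with he | ⟨b₀, hb₀⟩
  · have : R = ∅ := by
      rw [Finset.eq_empty_iff_forall_notMem]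
      intro q hq
      have h1 := Fintype.mem_piFinset.mp (Finset.mem_filter.mp hq).1 j₀
      rw [he] at h1
      simp at h1
    rw [this]
    simp only [Finset.card_empty, Nat.cast_zero]
    positivity
  set U' := Function.update U j₀ {b₀} with hU'
  have hmaps : ∀ q ∈ R, Function.update q j₀ b₀ ∈ Fintype.piFinset U' := by
    intro q hq
    rw [Fintype.mem_piFinset]
    intro j
    by_cases h : j = j₀
    · subst h
      simp [hU']
    · rw [hU', Function.update_of_ne h, Function.update_of_ne h]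
      exact Fintype.mem_piFinset.mp (Finset.mem_filter.mp hq).1 j
  have hcard := Finset.card_eq_sum_card_fiberwise (s := R) (t := Fintype.piFinset U') (f := fun q => Function.update q j₀ b₀)
    (fun q hq => Finset.mem_coe.mpr (hmaps q (Finset.mem_coe.mp hq)))
  have hfib : ∀ b ∈ Fintype.piFinset U', ((R.filter (fun q => Function.update q j₀ b₀ = b)).card : ℝ) ≤
      B * (X / d) * ∏ j, (if j = j₀ then (1 : ℝ) else 1 / w (b j)) := by
    intro b hb
    set Q₀ := ∏ j ∈ Finset.univ.erase j₀, w (b j) with hQ₀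
    have hbpos : ∀ j ∈ Finset.univ.erase j₀, 0 < w (b j) := by
      intro j hj
      have h1 := Fintype.mem_piFinset.mp hb j
      rw [hU', Function.update_of_ne (Finset.ne_of_mem_erase hj)] at h1
      exact hw j _ h1
    have hQpos : 0 < Q₀ := Finset.prod_pos hbpos
    have hinj : (R.filter (fun q => Function.update q j₀ b₀ = b)).card ≤ ((U j₀).filter (fun x => w x ≤ X / (d * Q₀))).card := by
      refine Finset.card_le_card_of_injOn (fun q => q j₀) ?_ ?_
      · intro q hq
        have hq1 := Finset.mem_filter.mp (Finset.mem_coe.mp hq)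
        have hq2 := Finset.mem_filter.mp hq1.1
        refine Finset.mem_coe.mpr (Finset.mem_filter.mpr ⟨Fintype.mem_piFinset.mp hq2.1 j₀, ?_⟩)
        rw [Nat.le_div_iff_mul_le (Nat.mul_pos hd hQpos)]
        have e : ∏ j, w (q j) = w (q j₀) * Q₀ := by
          rw [← Finset.mul_prod_erase Finset.univ (fun j => w (q j)) (Finset.mem_univ j₀)]
          congr 1
          refine Finset.prod_congr rfl fun j hj => ?_
          rw [← hq1.2, Function.update_of_ne (Finset.ne_of_mem_erase hj)]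
        have h2 := hq2.2
        rw [e] at h2
        calc w (q j₀) * (d * Q₀) = d * (w (q j₀) * Q₀) := by ring
          _ ≤ X := h2
      · intro q hq q' hq' h
        have hq1 := (Finset.mem_filter.mp (Finset.mem_coe.mp hq)).2
        have hq1' := (Finset.mem_filter.mp (Finset.mem_coe.mp hq')).2
        have h' : q j₀ = q' j₀ := h
        funext j
        by_cases hj : j = j₀
        · rw [hj]
          exact h'
        · have h2 := congrFun (hq1.trans hq1'.symm) j
          rwa [Function.update_of_ne hj, Function.update_of_ne hj] at h2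
    have h1 : ((R.filter (fun q => Function.update q j₀ b₀ = b)).card : ℝ) ≤ B * ((X / (d * Q₀) : ℕ) : ℝ) :=
      (by exact_mod_cast hinj : ((R.filter (fun q => Function.update q j₀ b₀ = b)).card : ℝ) ≤
        (((U j₀).filter (fun x => w x ≤ X / (d * Q₀))).card : ℝ)).trans (hB _)
    have h2 : (((X / (d * Q₀) : ℕ)) : ℝ) ≤ X / (d * Q₀ : ℕ) := Nat.cast_div_le
    have h3 : ∏ j, (if j = j₀ then (1 : ℝ) else 1 / w (b j)) = 1 / (Q₀ : ℝ) := by
      rw [← Finset.mul_prod_erase Finset.univ _ (Finset.mem_univ j₀), if_pos rfl, one_mul]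
      have e : ∏ j ∈ Finset.univ.erase j₀, (if j = j₀ then (1 : ℝ) else 1 / w (b j)) = ∏ j ∈ Finset.univ.erase j₀, (1 : ℝ) / w (b j) := by
        refine Finset.prod_congr rfl fun j hj => ?_
        rw [if_neg (Finset.ne_of_mem_erase hj)]
      rw [e, Finset.prod_div_distrib, Finset.prod_const_one, hQ₀, Nat.cast_prod]
    rw [h3]
    have hd' : (0 : ℝ) < d := by exact_mod_cast hd
    have hQ0' : (0 : ℝ) < Q₀ := by exact_mod_cast hQpos
    calc ((R.filter (fun q => Function.update q j₀ b₀ = b)).card : ℝ) ≤ B * (X / (d * Q₀ : ℕ)) := h1.trans (mul_le_mul_of_nonneg_left h2 hB0)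
      _ = B * (X / d) * (1 / (Q₀ : ℝ)) := by
        push_cast
        field_simp
  have h4 : (R.card : ℝ) = ∑ b ∈ Fintype.piFinset U', ((R.filter (fun q => Function.update q j₀ b₀ = b)).card : ℝ) := by
    rw [hcard]
    push_cast
    rfl
  rw [h4]
  refine (Finset.sum_le_sum hfib).trans (le_of_eq ?_)
  rw [← Finset.mul_sum, ← Finset.prod_univ_sum U' (fun j x => if j = j₀ then (1 : ℝ) else 1 / w x)]
  congr 1
  rw [← Finset.mul_prod_erase Finset.univ _ (Finset.mem_univ j₀)]
  have e1 : ∑ x ∈ U' j₀, (if j₀ = j₀ then (1 : ℝ) else 1 / w x) = 1 := by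
    simp [hU']
  rw [e1, one_mul]
  refine Finset.prod_congr rfl fun j hj => ?_
  have hne := Finset.ne_of_mem_erase hj
  rw [hU', Function.update_of_ne hne]
  refine Finset.sum_congr rfl fun x _ => ?_
  rw [if_neg hne]

/-! ### the weights -/

/-- the weight of the conditions for the component `j` -/
noncomputable def wj (D : CD k G) (z : ℕ → ℕ) (N : ℕ) (K : Fin k → ℕ) (d : Finset D.P) (τ : D.P → D.O) (j : Fin k) : ℝ :=
  ∏ p ∈ mm D z N K d j, (1 / 2 : ℝ) ^ (D.I p (τ p) j).card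

/-- the weight of a prime -/
noncomputable def Wt (D : CD k G) (z : ℕ → ℕ) (N : ℕ) (K : Fin k → ℕ) (p : D.P) : ℝ :=
  ∑ o ∈ VV D z N K p, (1 / 2 : ℝ) ^ (∑ j ∈ Js K (sc z N (D.nm p) + 2), (D.I p o j).card)

theorem wj_pos (D : CD k G) (z : ℕ → ℕ) (N : ℕ) (K : Fin k → ℕ) (d : Finset D.P) (τ : D.P → D.O) (j : Fin k) :
    0 < wj D z N K d τ j := Finset.prod_pos fun p _ => by positivity

theorem wj_prod (D : CD k G) (z : ℕ → ℕ) (N : ℕ) (K : Fin k → ℕ) (d : Finset D.P) (τ : D.P → D.O) :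
    ∏ j, wj D z N K d τ j = ∏ p ∈ pf D d, (1 / 2 : ℝ) ^ (∑ j ∈ Js K (sc z N (D.nm p) + 2), (D.I p (τ p) j).card) := by
  unfold wj mm
  have h1 : ∀ j, ∏ p ∈ (pf D d).filter (fun p => sc z N (D.nm p) + 3 ≤ K j), (1 / 2 : ℝ) ^ (D.I p (τ p) j).card =
      ∏ p ∈ pf D d, if sc z N (D.nm p) + 3 ≤ K j then (1 / 2 : ℝ) ^ (D.I p (τ p) j).card else 1 := fun j => Finset.prod_filter _ _
  simp only [h1]
  rw [Finset.prod_comm]
  refine Finset.prod_congr rfl fun p _ => ?_
  rw [← Finset.prod_pow_eq_pow_sum, Js, Finset.prod_filter]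
  refine Finset.prod_congr rfl fun j _ => ?_
  by_cases h : sc z N (D.nm p) + 3 ≤ K j
  · rw [if_pos h, if_pos (by omega)]
  · rw [if_neg h, if_neg (by omega)]

open Classical in
theorem sum_pi (D : CD k G) (z : ℕ → ℕ) (N : ℕ) (K : Fin k → ℕ) (d : Finset D.P) (o₀ : D.O) :
    ∑ f ∈ Finset.pi (pf D d) (fun p => VV D z N K p), ∏ j, wj D z N K d (ext o₀ _ f) j = ∏ p ∈ pf D d, Wt D z N K p := by
  unfold Wt
  rw [Finset.prod_sum]
  refine Finset.sum_congr rfl fun f _ => ?_
  rw [wj_prod, ← Finset.prod_attach]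
  refine Finset.prod_congr rfl fun x _ => ?_
  unfold ext
  rw [dif_pos x.2]

open Classical in
/-- the local factor -/
noncomputable def ap (D : CD k G) (z : ℕ → ℕ) (N : ℕ) (K : Fin k → ℕ) (p : D.P) : ℝ :=
  (if p ∈ D.Ex then 1 else Wt D z N K p) / D.nm p

theorem Wt_nonneg (D : CD k G) (z : ℕ → ℕ) (N : ℕ) (K : Fin k → ℕ) (p : D.P) : 0 ≤ Wt D z N K p :=
  Finset.sum_nonneg fun o _ => by positivity

theorem ap_nonneg (D : CD k G) (z : ℕ → ℕ) (N : ℕ) (K : Fin k → ℕ) (p : D.P) : 0 ≤ ap D z N K p := by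
  unfold ap
  have := Wt_nonneg D z N K p
  split_ifs <;> positivity

open Classical in
theorem euler (D : CD k G) (z : ℕ → ℕ) (N A X : ℕ) (K : Fin k → ℕ) :
    ∑ d ∈ DD D z N A X, (1 : ℝ) / Nm D d * ∏ p ∈ pf D d, Wt D z N K p ≤ Real.exp (∑ p ∈ pr D X, ap D z N K p) := by
  have h1 : ∀ d : Finset D.P, (1 : ℝ) / Nm D d * ∏ p ∈ pf D d, Wt D z N K p = ∏ p ∈ d, ap D z N K p := by
    intro d
    unfold Nm pf ap
    rw [Finset.prod_filter, Nat.cast_prod, Finset.prod_div_distrib, one_div_mul_eq_div]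
    congr 1
    refine Finset.prod_congr rfl fun p _ => ?_
    by_cases h : p ∈ D.Ex
    · simp [h]
    · simp [h]
  simp only [h1]
  calc ∑ d ∈ DD D z N A X, ∏ p ∈ d, ap D z N K p ≤ ∑ d ∈ (pr D X).powerset, ∏ p ∈ d, ap D z N K p :=
        Finset.sum_le_sum_of_subset_of_nonneg (Finset.filter_subset _ _) fun s _ _ => Finset.prod_nonneg fun p _ => ap_nonneg D z N K p
    _ = ∏ p ∈ pr D X, (1 + ap D z N K p) := by rw [Finset.prod_one_add]
    _ ≤ ∏ p ∈ pr D X, Real.exp (ap D z N K p) := by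
        refine Finset.prod_le_prod (fun p _ => add_nonneg zero_le_one (ap_nonneg D z N K p)) fun p _ => ?_
        rw [add_comm]
        exact Real.add_one_le_exp _
    _ = _ := by rw [Real.exp_sum]

end Pool.Agent.Helper99.HG
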